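import Pool.Agent.Lib.P280d4a.Circle
set_option autoImplicit false
open Complex MeasureTheory Metric Set Filter Topology
open scoped Real ComplexConjugate

namespace Pool.Agent.Lib.P280d4a

noncomputable section

variable (S : Finset ℂ) (ν : ℂ → ℝ)

/-- the denominator `∏ (1 - conj w z)` -/
def PP (z : ℂ) : ℂ := ∏ w ∈ S, (1 - conj w * z)

/-- numerator of `1 + h` -/
def NN (z : ℂ) : ℂ := ∑ w ∈ S, (ν w : ℂ) * ∏ v ∈ S.erase w, (1 - conj v * z)

/-- numerator of `h / z` -/
def Q1 (z : ℂ) : ℂ := ∑ w ∈ S, (ν w : ℂ) * conj w * ∏ v ∈ S.erase w, (1 - conj v * z)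

/-- numerator of `h` -/
def QQ (z : ℂ) : ℂ := z * Q1 S ν z

/-- the Blaschke product -/
def bb (z : ℂ) : ℂ := QQ S ν z / NN S ν z

variable {S ν}

lemma NN_sub_QQ (hsum : ∑ w ∈ S, ν w = 1) (z : ℂ) : NN S ν z - QQ S ν z = PP S z := by
  unfold NN QQ Q1 PP
  rw [Finset.mul_sum, ← Finset.sum_sub_distrib]
  have h1 : ∀ w ∈ S, (ν w : ℂ) * ∏ v ∈ S.erase w, (1 - conj v * z) -
      z * ((ν w : ℂ) * conj w * ∏ v ∈ S.erase w, (1 - conj v * z)) =
      (ν w : ℂ) * ∏ v ∈ S, (1 - conj v * z) := by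
    intro w hw
    rw [← Finset.mul_prod_erase S _ hw]
    ring
  rw [Finset.sum_congr rfl h1, ← Finset.sum_mul]
  have h2 : (∑ w ∈ S, (ν w : ℂ)) = 1 := by exact_mod_cast hsum
  rw [h2, one_mul]

lemma conj_mul_self_of_norm {w : ℂ} (hw : ‖w‖ = 1) : conj w * w = 1 := by
  rw [← Complex.normSq_eq_conj_mul_self, Complex.normSq_eq_norm_sq, hw]
  simp

lemma one_sub_eq_zero_iff {w z : ℂ} (hw : ‖w‖ = 1) : 1 - conj w * z = 0 ↔ z = w := by
  constructor
  · intro h
    have h1 : conj w * z = 1 := (sub_eq_zero.1 h).symm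
    have h2 : w * (conj w * z) = w := by rw [h1, mul_one]
    rw [← mul_assoc, mul_comm w, conj_mul_self_of_norm hw, one_mul] at h2
    exact h2
  · rintro rfl
    rw [conj_mul_self_of_norm hw, sub_self]

/-- real part of `1/(1-u)` -/
lemma re_inv_one_sub {u : ℂ} (hu : ‖u‖ ≤ 1) (h1 : 1 - u ≠ 0) : 1 / 2 ≤ ((1 - u)⁻¹).re := by
  rw [Complex.inv_re]
  have hpos : 0 < normSq (1 - u) := normSq_pos.2 h1
  rw [le_div_iff₀ hpos]
  have h2 : normSq (1 - u) = (1 - u.re) ^ 2 + u.im ^ 2 := by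
    rw [normSq_apply]; simp; ring
  have h3 : u.re ^ 2 + u.im ^ 2 ≤ 1 := by
    have : ‖u‖ ^ 2 ≤ 1 := by
      have := norm_nonneg u
      nlinarith
    rw [← Complex.normSq_eq_norm_sq, normSq_apply] at this
    linarith
  rw [h2]
  simp only [sub_re, one_re]
  nlinarith

section

variable (hS : ∀ w ∈ S, ‖w‖ = 1) (hν : ∀ w ∈ S, 0 < ν w) (hsum : ∑ w ∈ S, ν w = 1)
include hS

lemma PP_ne_zero {z : ℂ} (hz : z ∉ S) : PP S z ≠ 0 := by
  unfold PP
  rw [Finset.prod_ne_zero_iff]
  intro w hw h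
  rw [one_sub_eq_zero_iff (hS w hw)] at h
  exact hz (h ▸ hw)

lemma PP_eq_zero {z : ℂ} (hz : z ∈ S) : PP S z = 0 := by
  unfold PP
  exact Finset.prod_eq_zero hz ((one_sub_eq_zero_iff (hS z hz)).2 rfl)

lemma notMem_of_ball {z : ℂ} (hz : z ∈ ball (0:ℂ) 1) : z ∉ S := by
  intro h
  rw [mem_ball_zero_iff, hS z h] at hz
  exact lt_irrefl _ hz

lemma NN_div {z : ℂ} (hz : z ∉ S) :
    NN S ν z = PP S z * ∑ w ∈ S, (ν w : ℂ) * (1 - conj w * z)⁻¹ := by
  unfold NN PP
  rw [Finset.mul_sum]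
  refine Finset.sum_congr rfl fun w hw => ?_
  have h : 1 - conj w * z ≠ 0 := by
    intro h
    rw [one_sub_eq_zero_iff (hS w hw)] at h
    exact hz (h ▸ hw)
  rw [← Finset.mul_prod_erase S _ hw]
  generalize (∏ v ∈ S.erase w, (1 - conj v * z)) = X
  have e : (1 - conj w * z) * X * ((ν w : ℂ) * (1 - conj w * z)⁻¹) =
    (ν w : ℂ) * X * ((1 - conj w * z) * (1 - conj w * z)⁻¹) := by ring
  rw [e, mul_inv_cancel₀ h, mul_one]

lemma Q1_div {z : ℂ} (hz : z ∉ S) :
    Q1 S ν z = PP S z * ∑ w ∈ S, (ν w : ℂ) * conj w * (1 - conj w * z)⁻¹ := by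
  unfold Q1 PP
  rw [Finset.mul_sum]
  refine Finset.sum_congr rfl fun w hw => ?_
  have h : 1 - conj w * z ≠ 0 := by
    intro h
    rw [one_sub_eq_zero_iff (hS w hw)] at h
    exact hz (h ▸ hw)
  rw [← Finset.mul_prod_erase S _ hw]
  generalize (∏ v ∈ S.erase w, (1 - conj v * z)) = X
  have e : (1 - conj w * z) * X * ((ν w : ℂ) * conj w * (1 - conj w * z)⁻¹) =
    (ν w : ℂ) * conj w * X * ((1 - conj w * z) * (1 - conj w * z)⁻¹) := by ring
  rw [e, mul_inv_cancel₀ h, mul_one]

include hν hsum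

lemma NN_ne_zero {z : ℂ} (hz : ‖z‖ ≤ 1) : NN S ν z ≠ 0 := by
  by_cases hzS : z ∈ S
  · -- at a node
    unfold NN
    rw [Finset.sum_eq_single z]
    · apply mul_ne_zero
      · exact_mod_cast (hν z hzS).ne'
      · rw [Finset.prod_ne_zero_iff]
        intro v hv h
        rw [one_sub_eq_zero_iff (hS v (Finset.mem_of_mem_erase hv))] at h
        exact (Finset.ne_of_mem_erase hv) h.symm
    · intro w hw hne
      have : ∏ v ∈ S.erase w, (1 - conj v * z) = 0 :=
        Finset.prod_eq_zero (Finset.mem_erase.2 ⟨hne.symm, hzS⟩)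
          ((one_sub_eq_zero_iff (hS z hzS)).2 rfl)
      rw [this, mul_zero]
    · intro h
      exact absurd hzS h
  · rw [NN_div hS hzS]
    apply mul_ne_zero (PP_ne_zero hS hzS)
    intro h0
    have h1 : (∑ w ∈ S, (ν w : ℂ) * (1 - conj w * z)⁻¹).re = 0 := by rw [h0]; rfl
    rw [Complex.re_sum] at h1
    have h2 : ∑ w ∈ S, ν w * (1 / 2) ≤ ∑ w ∈ S, ((ν w : ℂ) * (1 - conj w * z)⁻¹).re := by
      refine Finset.sum_le_sum fun w hw => ?_
      rw [Complex.re_ofReal_mul]
      refine mul_le_mul_of_nonneg_left ?_ (hν w hw).le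
      apply re_inv_one_sub
      · rw [norm_mul, RCLike.norm_conj, hS w hw, one_mul]
        exact hz
      · intro h
        rw [one_sub_eq_zero_iff (hS w hw)] at h
        exact hzS (h ▸ hw)
    rw [h1, ← Finset.sum_mul, hsum] at h2
    norm_num at h2

end

lemma differentiable_PP : Differentiable ℂ (PP S) := by
  unfold PP
  fun_prop

lemma differentiable_NN : Differentiable ℂ (NN S ν) := by
  unfold NN
  fun_prop

lemma differentiable_Q1 : Differentiable ℂ (Q1 S ν) := by
  unfold Q1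
  fun_prop

lemma differentiable_QQ : Differentiable ℂ (QQ S ν) := by
  unfold QQ
  exact differentiable_id.mul differentiable_Q1

lemma J_eq_circleAverage (F : ℂ → ℂ) (ρ : ℝ) : J F ρ = 2 * π * Real.circleAverage F 0 ρ := by
  unfold J
  rw [Real.circleAverage_def, Complex.real_smul]
  push_cast
  rw [mul_inv_cancel_left₀]
  exact_mod_cast (by positivity : (2 * π : ℝ) ≠ 0)

lemma J_meanValue {F : ℂ → ℂ} {ρ : ℝ} (hρ : 0 ≤ ρ) (hF : DiffContOnCl ℂ F (ball 0 ρ)) :
    J F ρ = 2 * π * F 0 := by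
  rw [J_eq_circleAverage]
  rw [DiffContOnCl.circleAverage (by rwa [abs_of_nonneg hρ])]

lemma J_congr {F G : ℂ → ℂ} {ρ : ℝ} (hρ : 0 ≤ ρ) (h : ∀ z, ‖z‖ = ρ → F z = G z) :
    J F ρ = J G ρ := by
  unfold J
  congr 1
  ext θ
  apply h
  rw [norm_circleMap_zero, abs_of_nonneg hρ]

lemma J_conj {F : ℂ → ℂ} {ρ : ℝ} : J (fun z => conj (F z)) ρ = conj (J F ρ) := by
  unfold J
  rw [intervalIntegral.integral_of_le (by positivity), intervalIntegral.integral_of_le
    (by positivity), ← integral_conj]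

lemma reflection (hS : ∀ w ∈ S, ‖w‖ = 1) {z : ℂ} (hz : ‖z‖ = 1) :
    QQ S ν z = -(∏ w ∈ S, (-conj w)) * z ^ S.card * conj (NN S ν z) := by
  unfold QQ Q1 NN
  rw [map_sum, Finset.mul_sum, Finset.mul_sum]
  refine Finset.sum_congr rfl fun w hw => ?_
  rw [map_mul, Complex.conj_ofReal, map_prod]
  have hcard : S.card = (S.erase w).card + 1 := (Finset.card_erase_add_one hw).symm
  rw [← Finset.mul_prod_erase S _ hw, hcard, pow_succ]
  have hprod : (∏ v ∈ S.erase w, (-conj v)) * z ^ (S.erase w).card *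
      ∏ v ∈ S.erase w, conj (1 - conj v * z) = ∏ v ∈ S.erase w, (1 - conj v * z) := by
    rw [← Finset.prod_const, ← Finset.prod_mul_distrib, ← Finset.prod_mul_distrib]
    refine Finset.prod_congr rfl fun v hv => ?_
    have hv1 : conj v * v = 1 := conj_mul_self_of_norm (hS v (Finset.mem_of_mem_erase hv))
    have hz1 : conj z * z = 1 := conj_mul_self_of_norm hz
    simp only [map_sub, map_one, map_mul, conj_conj]
    have : -conj v * z * (1 - v * conj z) = -conj v * z + (conj v * v) * (conj z * z) := by ring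
    rw [this, hv1, hz1]
    ring
  calc z * ((ν w : ℂ) * conj w * ∏ v ∈ S.erase w, (1 - conj v * z))
      = z * ((ν w : ℂ) * conj w * ((∏ v ∈ S.erase w, (-conj v)) * z ^ (S.erase w).card *
      ∏ v ∈ S.erase w, conj (1 - conj v * z))) := by rw [hprod]
    _ = _ := by ring

lemma norm_prod_neg_conj (hS : ∀ w ∈ S, ‖w‖ = 1) : ‖∏ w ∈ S, (-conj w)‖ = 1 := by
  rw [norm_prod]
  apply Finset.prod_eq_one
  intro w hw
  rw [norm_neg, RCLike.norm_conj, hS w hw]

lemma norm_QQ (hS : ∀ w ∈ S, ‖w‖ = 1) {z : ℂ} (hz : ‖z‖ = 1) : ‖QQ S ν z‖ = ‖NN S ν z‖ := by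
  rw [reflection hS hz, norm_mul, norm_mul, norm_neg, norm_prod_neg_conj hS, norm_pow, hz,
    one_pow, RCLike.norm_conj]
  ring

lemma deriv_reflection (hS : ∀ w ∈ S, ‖w‖ = 1) {z : ℂ} (hz : ‖z‖ = 1) :
    z * deriv (QQ S ν) z = S.card * QQ S ν z +
      (∏ w ∈ S, (-conj w)) * z ^ S.card * conj (z * deriv (NN S ν) z) := by
  obtain ⟨θ, hθ⟩ : ∃ θ : ℝ, circleMap 0 1 θ = z := by
    refine ⟨arg z, ?_⟩
    simp only [circleMap, zero_add, ofReal_one, one_mul]
    have := Complex.norm_mul_exp_arg_mul_I z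
    rw [hz] at this
    simpa using this
  have hQ : HasDerivAt (QQ S ν) (deriv (QQ S ν) z) z := (differentiable_QQ z).hasDerivAt
  have hN : HasDerivAt (NN S ν) (deriv (NN S ν) z) z := (differentiable_NN z).hasDerivAt
  have hc : HasDerivAt (circleMap 0 1) (z * I) θ := by
    have := hasDerivAt_circleMap 0 1 θ
    rwa [hθ] at this
  have d1 : HasDerivAt (fun t : ℝ => QQ S ν (circleMap 0 1 t)) (deriv (QQ S ν) z * (z * I)) θ := by
    rw [← hθ] at hQ
    have := hQ.comp θ hc
    rw [hθ] at this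
    exact this
  have d2 : HasDerivAt (fun t : ℝ => conj (NN S ν (circleMap 0 1 t)))
      (conj (deriv (NN S ν) z * (z * I))) θ := by
    rw [← hθ] at hN
    have := hN.comp θ hc
    rw [hθ] at this
    exact hasDerivAt_conj_comp this
  have d3 : HasDerivAt (fun t : ℝ => (circleMap 0 1 t) ^ S.card)
      (S.card * z ^ (S.card - 1) * (z * I)) θ := by
    have := hc.pow S.card
    rw [hθ] at this
    exact this
  have d4 := (d3.const_mul (-(∏ w ∈ S, (-conj w)))).mul d2
  have heq : (fun t : ℝ => QQ S ν (circleMap 0 1 t)) =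
      (fun t : ℝ => -(∏ w ∈ S, (-conj w)) * circleMap 0 1 t ^ S.card) *
        (fun t : ℝ => conj (NN S ν (circleMap 0 1 t))) := by
    ext t
    simp only [Pi.mul_apply]
    exact reflection hS (by simp)
  rw [heq] at d1
  have h := d1.unique d4
  rw [hθ] at h
  have hr : (S.card : ℂ) * z ^ (S.card - 1) * z = S.card * z ^ S.card := by
    rcases Nat.eq_zero_or_pos S.card with h0 | hpos
    · rw [h0]; simp
    · rw [mul_assoc, ← pow_succ, Nat.sub_add_cancel hpos]
  have h2 : deriv (QQ S ν) z * (z * I) = I * (S.card * QQ S ν z +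
      (∏ w ∈ S, (-conj w)) * z ^ S.card * conj (z * deriv (NN S ν) z)) := by
    rw [h, reflection hS hz]
    simp only [map_mul, conj_I]
    linear_combination (-(∏ w ∈ S, (-conj w)) * I * conj (NN S ν z)) * hr
  have h3 : I * (z * deriv (QQ S ν) z) = I * (S.card * QQ S ν z +
      (∏ w ∈ S, (-conj w)) * z ^ S.card * conj (z * deriv (NN S ν) z)) := by
    rw [← h2]; ring
  exact mul_left_cancel₀ I_ne_zero h3

/-- the open set on which the Blaschke product is analytic -/
def UU (S : Finset ℂ) (ν : ℂ → ℝ) : Set ℂ := {z | NN S ν z ≠ 0}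

lemma isOpen_UU : IsOpen (UU S ν) :=
  isOpen_ne_fun (differentiable_NN).continuous continuous_const

lemma differentiableOn_bb : DifferentiableOn ℂ (bb S ν) (UU S ν) := by
  unfold bb
  intro z hz
  exact ((differentiable_QQ z).div (differentiable_NN z) hz).differentiableWithinAt

lemma bb_zero : bb S ν 0 = 0 := by
  unfold bb QQ
  simp

section
variable (hS : ∀ w ∈ S, ‖w‖ = 1) (hν : ∀ w ∈ S, 0 < ν w) (hsum : ∑ w ∈ S, ν w = 1)
include hS hν hsum

lemma closedBall_subset_UU : closedBall (0:ℂ) 1 ⊆ UU S ν := by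
  intro z hz
  rw [mem_closedBall_zero_iff] at hz
  exact NN_ne_zero hS hν hsum hz

lemma deriv_bb {z : ℂ} (hz : ‖z‖ ≤ 1) : deriv (bb S ν) z =
    (deriv (QQ S ν) z * NN S ν z - QQ S ν z * deriv (NN S ν) z) / (NN S ν z) ^ 2 := by
  have h := (differentiable_QQ (S := S) (ν := ν) z).hasDerivAt.div
    (differentiable_NN (S := S) (ν := ν) z).hasDerivAt (NN_ne_zero hS hν hsum hz)
  exact h.deriv

lemma norm_bb_circle {z : ℂ} (hz : ‖z‖ = 1) : ‖bb S ν z‖ = 1 := by
  unfold bb
  rw [norm_div, norm_QQ hS hz, div_self]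
  exact norm_ne_zero_iff.2 (NN_ne_zero hS hν hsum hz.le)

lemma conj_bb_mul_bb {z : ℂ} (hz : ‖z‖ = 1) : conj (bb S ν z) * bb S ν z = 1 :=
  conj_mul_self_of_norm (norm_bb_circle hS hν hsum hz)

lemma diffContOnCl_bb : DiffContOnCl ℂ (bb S ν) (ball 0 1) := by
  apply DifferentiableOn.diffContOnCl
  rw [closure_ball _ one_ne_zero]
  exact differentiableOn_bb.mono (closedBall_subset_UU hS hν hsum)

lemma norm_bb_le {z : ℂ} (hz : ‖z‖ ≤ 1) : ‖bb S ν z‖ ≤ 1 := by
  apply Complex.norm_le_of_forall_mem_frontier_norm_le (U := ball (0:ℂ) 1) isBounded_ball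
    (diffContOnCl_bb hS hν hsum)
  · intro w hw
    rw [frontier_ball _ one_ne_zero, mem_sphere_zero_iff_norm] at hw
    exact (norm_bb_circle hS hν hsum hw).le
  · rw [closure_ball _ one_ne_zero, mem_closedBall_zero_iff]
    exact hz

lemma bb_node {w : ℂ} (hw : w ∈ S) : bb S ν w = 1 := by
  have h1 := NN_sub_QQ (S := S) (ν := ν) hsum w
  rw [PP_eq_zero hS hw] at h1
  unfold bb
  rw [← sub_eq_zero.1 h1, div_self]
  exact NN_ne_zero hS hν hsum (hS w hw).le

lemma one_sub_bb {z : ℂ} (hz : ‖z‖ ≤ 1) : 1 - bb S ν z = PP S z / NN S ν z := by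
  have h1 := NN_sub_QQ (S := S) (ν := ν) hsum z
  have h2 := NN_ne_zero hS hν hsum hz
  unfold bb
  rw [← h1]
  field_simp

lemma logderiv_bb {z : ℂ} (hz : ‖z‖ = 1) :
    conj (bb S ν z) * (z * deriv (bb S ν) z) =
      S.card - conj (z * deriv (NN S ν) z / NN S ν z) - z * deriv (NN S ν) z / NN S ν z := by
  have hN := NN_ne_zero hS hν hsum hz.le
  have hNc : conj (NN S ν z) ≠ 0 := by
    intro h
    apply hN
    have := congrArg conj h
    simpa using this
  rw [deriv_bb hS hν hsum hz.le]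
  have h1 := deriv_reflection (ν := ν) hS hz
  have h2 := reflection (ν := ν) hS hz
  have h3 : conj (QQ S ν z) * QQ S ν z = conj (NN S ν z) * NN S ν z := by
    have h4 := norm_QQ (ν := ν) hS hz
    rw [← Complex.normSq_eq_conj_mul_self, ← Complex.normSq_eq_conj_mul_self,
      Complex.normSq_eq_norm_sq, Complex.normSq_eq_norm_sq, h4]
  have hQ : QQ S ν z ≠ 0 := by
    rw [← norm_ne_zero_iff, norm_QQ hS hz]
    exact norm_ne_zero_iff.2 hN
  unfold bb
  rw [map_div₀, map_div₀]
  -- set abbreviations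
  generalize hq : QQ S ν z = q at *
  generalize hn : NN S ν z = n at *
  generalize hq' : deriv (QQ S ν) z = q' at *
  generalize hn' : deriv (NN S ν) z = n' at *
  generalize hC : (∏ w ∈ S, (-conj w)) * z ^ S.card = C at *
  have h5 : q = -C * conj n := by
    rw [h2, ← hC]; ring
  have h6 : conj q * C = - n := by
    have h7 : (conj q * C + n) * conj n = 0 := by
      have : (conj q * C + n) * conj n = -(conj q * (-C * conj n)) + conj n * n := by ring
      rw [this, ← h5, h3]; ring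
    have := (mul_eq_zero.1 h7).resolve_right hNc
    linear_combination this
  have h8 : conj q / conj n * (z * ((q' * n - q * n') / n ^ 2)) =
      (conj q * (z * q') * n - (conj q * q) * (z * n')) / (conj n * n ^ 2) := by
    field_simp
  rw [h8, h1, h3]
  have h9 : conj q * (S.card * q + C * conj (z * n')) * n =
      (S.card * (conj n * n) - n * conj (z * n')) * n := by
    have : conj q * (S.card * q + C * conj (z * n')) * n =
      (S.card * (conj q * q) + (conj q * C) * conj (z * n')) * n := by ring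
    rw [this, h3, h6]; ring
  rw [h9]
  field_simp

lemma J_logderiv : J (fun z => conj (bb S ν z) * (z * deriv (bb S ν) z)) 1 =
    2 * π * S.card := by
  rw [J_congr zero_le_one (fun z hz => logderiv_bb hS hν hsum hz)]
  have hdc : DiffContOnCl ℂ (fun z => z * deriv (NN S ν) z / NN S ν z) (ball 0 1) := by
    apply DifferentiableOn.diffContOnCl
    rw [closure_ball _ one_ne_zero]
    intro z hz
    rw [mem_closedBall_zero_iff] at hz
    have hd : Differentiable ℂ (deriv (NN S ν)) := by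
      rw [← differentiableOn_univ]
      exact (differentiable_NN.differentiableOn).deriv isOpen_univ
    exact ((differentiableAt_id.mul (hd z)).div (differentiable_NN z)
      (NN_ne_zero hS hν hsum hz)).differentiableWithinAt
  have h1 : J (fun z => z * deriv (NN S ν) z / NN S ν z) 1 = 0 := by
    rw [J_meanValue zero_le_one hdc]
    simp
  have hcont : ContinuousOn (fun z => z * deriv (NN S ν) z / NN S ν z) (closedBall 0 1) := by
    have := hdc.continuousOn
    rwa [closure_ball _ one_ne_zero] at this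
  have hc1 : Continuous (fun θ => (fun z => z * deriv (NN S ν) z / NN S ν z) (circleMap 0 1 θ)) :=
    hcont.comp_continuous (continuous_circleMap 0 1) (fun θ => by simp)
  have h2 : J (fun z => conj (z * deriv (NN S ν) z / NN S ν z)) 1 = 0 := by
    rw [J_conj, h1, map_zero]
  unfold J at h1 h2 ⊢
  have e1 : ∫ θ in (0:ℝ)..2 * π, ((S.card : ℂ) -
      conj (circleMap 0 1 θ * deriv (NN S ν) (circleMap 0 1 θ) / NN S ν (circleMap 0 1 θ)) -
      circleMap 0 1 θ * deriv (NN S ν) (circleMap 0 1 θ) / NN S ν (circleMap 0 1 θ)) =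
      (∫ θ in (0:ℝ)..2 * π, (S.card : ℂ)) - (∫ θ in (0:ℝ)..2 * π,
        conj (circleMap 0 1 θ * deriv (NN S ν) (circleMap 0 1 θ) / NN S ν (circleMap 0 1 θ))) -
      (∫ θ in (0:ℝ)..2 * π,
        circleMap 0 1 θ * deriv (NN S ν) (circleMap 0 1 θ) / NN S ν (circleMap 0 1 θ)) := by
    rw [← intervalIntegral.integral_sub, ← intervalIntegral.integral_sub]
    · exact (continuous_const.sub (Complex.continuous_conj.comp hc1)).intervalIntegrable _ _
    · exact hc1.intervalIntegrable _ _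
    · exact intervalIntegrable_const
    · exact (Complex.continuous_conj.comp hc1).intervalIntegrable _ _
  rw [e1, h1, h2]
  simp

end

end

end Pool.Agent.Lib.P280d4a
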