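import Mathlib
set_option autoImplicit false
open Complex MeasureTheory Metric Set Filter Topology
open scoped Real ComplexConjugate

namespace Pool.Agent.Lib.P280d4a

noncomputable section

/-- angular integral over the circle of radius `ρ` -/
def J (F : ℂ → ℂ) (ρ : ℝ) : ℂ := ∫ θ in (0:ℝ)..2 * π, F (circleMap 0 ρ θ)

lemma circleMap_mem_ball {ρ : ℝ} (h0 : 0 ≤ ρ) (h1 : ρ < 1) (θ : ℝ) :
    circleMap 0 ρ θ ∈ ball (0 : ℂ) 1 := by
  simp only [mem_ball, dist_zero_right, norm_circleMap_zero]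
  rwa [abs_of_nonneg h0]

lemma hasDerivAt_conj_comp {g : ℝ → ℂ} {g' : ℂ} {t : ℝ} (h : HasDerivAt g g' t) :
    HasDerivAt (fun x => conj (g x)) (conj g') t := by
  exact h.star

lemma J_parts {X Y : ℂ → ℂ} {U : Set ℂ} (hU : IsOpen U) {ρ : ℝ} (hρ : 0 ≤ ρ)
    (hs : sphere (0 : ℂ) ρ ⊆ U)
    (hX : DifferentiableOn ℂ X U) (hY : DifferentiableOn ℂ Y U) :
    J (fun z => z * deriv X z * conj (Y z)) ρ = J (fun z => X z * conj (z * deriv Y z)) ρ := by
  have hmem : ∀ θ : ℝ, circleMap 0 ρ θ ∈ U := fun θ => hs (circleMap_mem_sphere 0 hρ θ)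
  have hXd : ∀ θ : ℝ, HasDerivAt X (deriv X (circleMap 0 ρ θ)) (circleMap 0 ρ θ) := fun θ =>
    (hX.differentiableAt (hU.mem_nhds (hmem θ))).hasDerivAt
  have hYd : ∀ θ : ℝ, HasDerivAt Y (deriv Y (circleMap 0 ρ θ)) (circleMap 0 ρ θ) := fun θ =>
    (hY.differentiableAt (hU.mem_nhds (hmem θ))).hasDerivAt
  let g : ℝ → ℂ := fun θ => X (circleMap 0 ρ θ) * conj (Y (circleMap 0 ρ θ))
  let g' : ℝ → ℂ := fun θ => I * (circleMap 0 ρ θ * deriv X (circleMap 0 ρ θ) *
      conj (Y (circleMap 0 ρ θ)) -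
      X (circleMap 0 ρ θ) * conj (circleMap 0 ρ θ * deriv Y (circleMap 0 ρ θ)))
  have hg : ∀ θ, HasDerivAt g (g' θ) θ := by
    intro θ
    have h1 : HasDerivAt (fun θ => X (circleMap 0 ρ θ))
        (deriv X (circleMap 0 ρ θ) * (circleMap 0 ρ θ * I)) θ :=
      (hXd θ).comp θ (hasDerivAt_circleMap 0 ρ θ)
    have h2 : HasDerivAt (fun θ => Y (circleMap 0 ρ θ))
        (deriv Y (circleMap 0 ρ θ) * (circleMap 0 ρ θ * I)) θ :=
      (hYd θ).comp θ (hasDerivAt_circleMap 0 ρ θ)
    have h3 := h1.mul (hasDerivAt_conj_comp h2)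
    refine h3.congr_deriv ?_
    simp only [g', map_mul, conj_I]
    ring
  have hXc : ContinuousOn (deriv X) U := (hX.deriv hU).continuousOn
  have hYc : ContinuousOn (deriv Y) U := (hY.deriv hU).continuousOn
  have hcm : Continuous (circleMap 0 ρ) := continuous_circleMap 0 ρ
  have c1 : Continuous (fun θ => deriv X (circleMap 0 ρ θ)) :=
    hXc.comp_continuous hcm hmem
  have c2 : Continuous (fun θ => deriv Y (circleMap 0 ρ θ)) :=
    hYc.comp_continuous hcm hmem
  have c3 : Continuous (fun θ => X (circleMap 0 ρ θ)) :=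
    hX.continuousOn.comp_continuous hcm hmem
  have c4 : Continuous (fun θ => Y (circleMap 0 ρ θ)) :=
    hY.continuousOn.comp_continuous hcm hmem
  have c5 : Continuous (fun θ => circleMap 0 ρ θ * deriv X (circleMap 0 ρ θ) *
      conj (Y (circleMap 0 ρ θ))) := (hcm.mul c1).mul (Complex.continuous_conj.comp c4)
  have c6 : Continuous (fun θ => X (circleMap 0 ρ θ) *
      conj (circleMap 0 ρ θ * deriv Y (circleMap 0 ρ θ))) :=
    c3.mul (Complex.continuous_conj.comp (hcm.mul c2))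
  have hg'c : Continuous g' := continuous_const.mul (c5.sub c6)
  have hint : ∫ θ in (0:ℝ)..2 * π, g' θ = g (2 * π) - g 0 :=
    intervalIntegral.integral_eq_sub_of_hasDerivAt (fun θ _ => hg θ) (hg'c.intervalIntegrable _ _)
  have hper : g (2 * π) = g 0 := by
    simp only [g]
    have : circleMap 0 ρ (2 * π) = circleMap 0 ρ 0 := by
      have := (periodic_circleMap 0 ρ) 0
      simpa using this
    rw [this]
  rw [hper, sub_self] at hint
  simp only [g'] at hint
  rw [intervalIntegral.integral_const_mul, intervalIntegral.integral_sub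
    (c5.intervalIntegrable _ _) (c6.intervalIntegrable _ _)] at hint
  have := (mul_eq_zero.1 hint).resolve_left I_ne_zero
  exact sub_eq_zero.1 this

lemma circleMap_mem_ball' {ρ : ℝ} (h : |ρ| < 1) (θ : ℝ) :
    circleMap 0 ρ θ ∈ ball (0 : ℂ) 1 := by
  simp only [mem_ball, dist_zero_right, norm_circleMap_zero]
  exact h

lemma hasDerivAt_circleMap_radius (θ ρ : ℝ) :
    HasDerivAt (fun ρ : ℝ => circleMap 0 ρ θ) (exp (θ * I)) ρ := by
  have h : (fun ρ : ℝ => circleMap 0 ρ θ) = fun ρ : ℝ => (ρ : ℂ) * exp (θ * I) := by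
    ext ρ
    simp [circleMap]
  rw [h]
  have := (Complex.ofRealCLM.hasDerivAt (x := ρ)).mul_const (exp (θ * I))
  simpa using this

/-- integrand -/
def FF (X G : ℂ → ℂ) (x θ : ℝ) : ℂ := X (circleMap 0 x θ) * conj (G (circleMap 0 x θ))

/-- derivative of the integrand in the radius -/
def DD (X G : ℂ → ℂ) (x θ : ℝ) : ℂ :=
    deriv X (circleMap 0 x θ) * exp (θ * I) * conj (G (circleMap 0 x θ)) +
      X (circleMap 0 x θ) * conj (deriv G (circleMap 0 x θ) * exp (θ * I))

lemma hasDerivAt_FF {X G : ℂ → ℂ} (hX : DifferentiableOn ℂ X (ball 0 1))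
    (hG : DifferentiableOn ℂ G (ball 0 1)) (x : ℝ) (hx : |x| < 1) (θ : ℝ) :
    HasDerivAt (fun x => FF X G x θ) (DD X G x θ) x := by
  have hUo : IsOpen (ball (0:ℂ) 1) := isOpen_ball
  have hm := circleMap_mem_ball' hx θ
  have a1 : HasDerivAt (fun x => X (circleMap 0 x θ))
      (deriv X (circleMap 0 x θ) * exp (θ * I)) x :=
    ((hX.differentiableAt (hUo.mem_nhds hm)).hasDerivAt).comp x
      (hasDerivAt_circleMap_radius θ x)
  have a2 : HasDerivAt (fun x => G (circleMap 0 x θ))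
      (deriv G (circleMap 0 x θ) * exp (θ * I)) x :=
    ((hG.differentiableAt (hUo.mem_nhds hm)).hasDerivAt).comp x
      (hasDerivAt_circleMap_radius θ x)
  exact a1.mul (hasDerivAt_conj_comp a2)

lemma continuousOn_circ {X : ℂ → ℂ} (hX : ContinuousOn X (ball 0 1)) :
    ContinuousOn (fun p : ℝ × ℝ => X (circleMap 0 p.1 p.2)) (Ioo (-1) 1 ×ˢ univ) := by
  have hcm2 : Continuous (fun p : ℝ × ℝ => circleMap 0 p.1 p.2) := by
    unfold circleMap
    fun_prop
  have hmaps : MapsTo (fun p : ℝ × ℝ => circleMap 0 p.1 p.2) (Ioo (-1) 1 ×ˢ univ)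
      (ball (0:ℂ) 1) := by
    rintro ⟨x, θ⟩ ⟨hx, _⟩
    exact circleMap_mem_ball' (abs_lt.2 hx) θ
  exact hX.comp hcm2.continuousOn hmaps

lemma continuousOn_DD {X G : ℂ → ℂ} (hX : DifferentiableOn ℂ X (ball 0 1))
    (hG : DifferentiableOn ℂ G (ball 0 1)) :
    ContinuousOn (fun p : ℝ × ℝ => DD X G p.1 p.2) (Ioo (-1) 1 ×ˢ univ) := by
  have hUo : IsOpen (ball (0:ℂ) 1) := isOpen_ball
  have hX' : DifferentiableOn ℂ (deriv X) (ball 0 1) := hX.deriv hUo
  have hG' : DifferentiableOn ℂ (deriv G) (ball 0 1) := hG.deriv hUo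
  have e1 : Continuous (fun p : ℝ × ℝ => exp (p.2 * I)) := by fun_prop
  have cX := continuousOn_circ hX.continuousOn
  have cX' := continuousOn_circ hX'.continuousOn
  have cG := continuousOn_circ hG.continuousOn
  have cG' := continuousOn_circ hG'.continuousOn
  exact ((cX'.mul e1.continuousOn).mul (Complex.continuous_conj.comp_continuousOn cG)).add
      (cX.mul (Complex.continuous_conj.comp_continuousOn (cG'.mul e1.continuousOn)))

lemma continuousOn_FF {X G : ℂ → ℂ} (hX : DifferentiableOn ℂ X (ball 0 1))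
    (hG : DifferentiableOn ℂ G (ball 0 1)) :
    ContinuousOn (fun p : ℝ × ℝ => FF X G p.1 p.2) (Ioo (-1) 1 ×ˢ univ) :=
  (continuousOn_circ hX.continuousOn).mul
    (Complex.continuous_conj.comp_continuousOn (continuousOn_circ hG.continuousOn))

lemma continuous_slice {H : ℝ → ℝ → ℂ}
    (hH : ContinuousOn (fun p : ℝ × ℝ => H p.1 p.2) (Ioo (-1) 1 ×ˢ univ)) (x : ℝ)
    (hx : |x| < 1) : Continuous (H x) := by
  have : Continuous (fun θ : ℝ => ((x, θ) : ℝ × ℝ)) := by fun_prop
  exact hH.comp_continuous this (fun θ => ⟨abs_lt.1 hx, mem_univ _⟩)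

lemma hasDerivAt_int {X G : ℂ → ℂ} (hX : DifferentiableOn ℂ X (ball 0 1))
    (hG : DifferentiableOn ℂ G (ball 0 1)) (x : ℝ) (hx : |x| < 1) :
    HasDerivAt (fun x => ∫ θ in (0:ℝ)..2 * π, FF X G x θ)
      (∫ θ in (0:ℝ)..2 * π, DD X G x θ) x := by
  obtain ⟨r, hxr, hr1⟩ := exists_between hx
  have hr0 : 0 < r := lt_of_le_of_lt (abs_nonneg _) hxr
  have hK : IsCompact (Icc (-r) r ×ˢ Icc (0:ℝ) (2 * π)) := isCompact_Icc.prod isCompact_Icc
  have hKsub : (Icc (-r) r ×ˢ Icc (0:ℝ) (2 * π)) ⊆ (Ioo (-1) 1 ×ˢ univ : Set (ℝ × ℝ)) := by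
    rintro ⟨y, θ⟩ ⟨hy, _⟩
    exact ⟨⟨by linarith [hy.1], by linarith [hy.2]⟩, mem_univ _⟩
  obtain ⟨C, hC⟩ := hK.exists_bound_of_continuousOn ((continuousOn_DD hX hG).mono hKsub)
  have hnhds : Ioo (-r) r ∈ 𝓝 x := Ioo_mem_nhds (abs_lt.1 hxr).1 (abs_lt.1 hxr).2
  have m1 : ∀ᶠ y in 𝓝 x, AEStronglyMeasurable (FF X G y) (volume.restrict (uIoc 0 (2 * π))) := by
    filter_upwards [hnhds] with y hy
    exact (continuous_slice (continuousOn_FF hX hG) y
      (abs_lt.2 ⟨by linarith [hy.1], by linarith [hy.2]⟩)).aestronglyMeasurable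
  have m2 : IntervalIntegrable (FF X G x) volume 0 (2 * π) :=
    (continuous_slice (continuousOn_FF hX hG) x hx).intervalIntegrable _ _
  have m3 : AEStronglyMeasurable (DD X G x) (volume.restrict (uIoc 0 (2 * π))) :=
    (continuous_slice (continuousOn_DD hX hG) x hx).aestronglyMeasurable
  have m4 : ∀ᵐ t ∂volume, t ∈ uIoc 0 (2 * π) → ∀ y ∈ Ioo (-r) r, ‖DD X G y t‖ ≤ C := by
    refine Eventually.of_forall fun θ hθ y hy => ?_
    rw [uIoc_of_le (by positivity)] at hθ
    exact hC (y, θ) ⟨⟨hy.1.le, hy.2.le⟩, ⟨hθ.1.le, hθ.2⟩⟩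
  have m5 : ∀ᵐ t ∂volume, t ∈ uIoc 0 (2 * π) → ∀ y ∈ Ioo (-r) r,
      HasDerivAt (fun y => FF X G y t) (DD X G y t) y := by
    refine Eventually.of_forall fun θ hθ y hy => ?_
    exact hasDerivAt_FF hX hG y (abs_lt.2 ⟨by linarith [hy.1], by linarith [hy.2]⟩) θ
  exact (intervalIntegral.hasDerivAt_integral_of_dominated_loc_of_deriv_le
      hnhds m1 m2 m3 m4 intervalIntegrable_const m5).2

lemma cont_on_circle {X : ℂ → ℂ} (hX : ContinuousOn X (ball 0 1)) {x : ℝ} (hx : |x| < 1) :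
    Continuous (fun θ => X (circleMap 0 x θ)) :=
  hX.comp_continuous (continuous_circleMap 0 x) (fun θ => circleMap_mem_ball' hx θ)

lemma int_DD {X G : ℂ → ℂ} (hX : DifferentiableOn ℂ X (ball 0 1))
    (hG : DifferentiableOn ℂ G (ball 0 1)) (x : ℝ) (hx0 : 0 < x) (hx1 : x < 1) :
    (x : ℂ) * (∫ θ in (0:ℝ)..2 * π, DD X G x θ) =
        2 * J (fun z => z * deriv X z * conj (G z)) x := by
  have hUo : IsOpen (ball (0:ℂ) 1) := isOpen_ball
  have hxa : |x| < 1 := by rwa [abs_of_pos hx0]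
  have hsph : sphere (0:ℂ) x ⊆ ball 0 1 := by
    intro z hz
    rw [mem_sphere_iff_norm, sub_zero] at hz
    rw [mem_ball_zero_iff, hz]
    exact hx1
  have p1 := J_parts hUo hx0.le hsph hX hG
  have hX' : DifferentiableOn ℂ (deriv X) (ball 0 1) := hX.deriv hUo
  have hG' : DifferentiableOn ℂ (deriv G) (ball 0 1) := hG.deriv hUo
  have hcc : Continuous (circleMap 0 x) := continuous_circleMap 0 x
  have q1 : Continuous (fun θ => circleMap 0 x θ * deriv X (circleMap 0 x θ) *
      conj (G (circleMap 0 x θ))) :=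
    (hcc.mul (cont_on_circle hX'.continuousOn hxa)).mul
      (Complex.continuous_conj.comp (cont_on_circle hG.continuousOn hxa))
  have q2 : Continuous (fun θ => X (circleMap 0 x θ) *
      conj (circleMap 0 x θ * deriv G (circleMap 0 x θ))) :=
    (cont_on_circle hX.continuousOn hxa).mul
      (Complex.continuous_conj.comp (hcc.mul (cont_on_circle hG'.continuousOn hxa)))
  have step : (x : ℂ) * (∫ θ in (0:ℝ)..2 * π, DD X G x θ) =
      J (fun z => z * deriv X z * conj (G z)) x + J (fun z => X z * conj (z * deriv G z)) x := by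
    unfold J
    rw [← intervalIntegral.integral_add (q1.intervalIntegrable _ _)
      (q2.intervalIntegrable _ _), ← intervalIntegral.integral_const_mul]
    congr 1
    ext θ
    have hcx : circleMap 0 x θ = (x : ℂ) * exp (θ * I) := by simp [circleMap]
    have hconj : conj (x : ℂ) = (x : ℂ) := Complex.conj_ofReal x
    simp only [DD]
    rw [hcx]
    simp only [map_mul, hconj]
    ring
  rw [step, ← p1]
  ring

/-- Positivity: if `Re (X' conj Y') ≥ 0` in the disk, then `Re ∫ X conj (z Y') ≥ 0`. -/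
lemma J_nonneg {X Y : ℂ → ℂ} (hX : DifferentiableOn ℂ X (ball 0 1))
    (hY : DifferentiableOn ℂ Y (ball 0 1))
    (hpos : ∀ z ∈ ball (0:ℂ) 1, 0 ≤ (deriv X z * conj (deriv Y z)).re) {ρ : ℝ} (h0 : 0 ≤ ρ)
    (h1 : ρ < 1) :
    0 ≤ (J (fun z => X z * conj (z * deriv Y z)) ρ).re := by
  have hUo : IsOpen (ball (0:ℂ) 1) := isOpen_ball
  obtain ⟨G, hG⟩ : ∃ G : ℂ → ℂ, G = fun z => z * deriv Y z := ⟨_, rfl⟩
  have hGz : ∀ z, G z = z * deriv Y z := fun z => by rw [hG]
  have hGd : DifferentiableOn ℂ G (ball 0 1) := by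
    rw [hG]
    exact differentiableOn_id.mul (hY.deriv hUo)
  have hX' : DifferentiableOn ℂ (deriv X) (ball 0 1) := hX.deriv hUo
  -- the derivative has nonnegative real part
  have hnn : ∀ x : ℝ, 0 < x → x < 1 → 0 ≤ (∫ θ in (0:ℝ)..2 * π, DD X G x θ).re := by
    intro x hx0 hx1
    have hxa : |x| < 1 := by rwa [abs_of_pos hx0]
    have key := int_DD hX hGd x hx0 hx1
    have hJ : 0 ≤ (J (fun z => z * deriv X z * conj (G z)) x).re := by
      unfold J
      have hcc : Continuous (circleMap 0 x) := continuous_circleMap 0 x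
      have q1 : Continuous (fun θ => circleMap 0 x θ * deriv X (circleMap 0 x θ) *
          conj (G (circleMap 0 x θ))) :=
        (hcc.mul (cont_on_circle hX'.continuousOn hxa)).mul
          (Complex.continuous_conj.comp (cont_on_circle hGd.continuousOn hxa))
      have hre : (∫ θ in (0:ℝ)..2 * π, circleMap 0 x θ * deriv X (circleMap 0 x θ) *
          conj (G (circleMap 0 x θ))).re = ∫ θ in (0:ℝ)..2 * π,
            (circleMap 0 x θ * deriv X (circleMap 0 x θ) * conj (G (circleMap 0 x θ))).re := by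
        have := Complex.reCLM.intervalIntegral_comp_comm (q1.intervalIntegrable 0 (2 * π))
          (μ := volume)
        simpa using this.symm
      rw [hre]
      apply intervalIntegral.integral_nonneg (by positivity)
      intro θ _
      set z := circleMap 0 x θ with hz
      have hzm : z ∈ ball (0:ℂ) 1 := circleMap_mem_ball' hxa θ
      have : z * deriv X z * conj (G z) = (normSq z : ℂ) * (deriv X z * conj (deriv Y z)) := by
        rw [hGz, map_mul, ← Complex.mul_conj]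
        ring
      rw [this, Complex.re_ofReal_mul]
      exact mul_nonneg (normSq_nonneg _) (hpos z hzm)
    have h3 : x * (∫ θ in (0:ℝ)..2 * π, DD X G x θ).re =
        2 * (J (fun z => z * deriv X z * conj (G z)) x).re := by
      have := congrArg Complex.re key
      rw [Complex.re_ofReal_mul] at this
      rw [this]
      simp
    have h4 : 0 ≤ x * (∫ θ in (0:ℝ)..2 * π, DD X G x θ).re := by rw [h3]; positivity
    exact nonneg_of_mul_nonneg_right h4 hx0
  -- conclude
  obtain ⟨φ, hφ⟩ : ∃ φ : ℝ → ℝ, φ = fun x => (∫ θ in (0:ℝ)..2 * π, FF X G x θ).re := ⟨_, rfl⟩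
  have hφd : ∀ x : ℝ, |x| < 1 → HasDerivAt φ (∫ θ in (0:ℝ)..2 * π, DD X G x θ).re x := by
    intro x hx
    rw [hφ]
    exact Complex.reCLM.hasFDerivAt.comp_hasDerivAt x (hasDerivAt_int hX hGd x hx)
  have hmono : MonotoneOn φ (Icc 0 ρ) := by
    apply monotoneOn_of_deriv_nonneg (convex_Icc 0 ρ)
    · intro x hx
      exact (hφd x (by rw [abs_of_nonneg hx.1]; linarith [hx.2])).continuousAt.continuousWithinAt
    · intro x hx
      rw [interior_Icc] at hx
      exact (hφd x (by rw [abs_of_pos hx.1]; linarith [hx.2])).differentiableAt.differentiableWithinAt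
    · intro x hx
      rw [interior_Icc] at hx
      rw [(hφd x (by rw [abs_of_pos hx.1]; linarith [hx.2])).deriv]
      exact hnn x hx.1 (by linarith [hx.2])
  have hφ0 : φ 0 = 0 := by
    rw [hφ]
    simp only [FF]
    have hG0 : G 0 = 0 := by simp [hGz]
    simp [hG0]
  have := hmono (left_mem_Icc.2 h0) (right_mem_Icc.2 h0) h0
  rw [hφ0, hφ] at this
  have e : J (fun z => X z * conj (z * deriv Y z)) ρ = ∫ θ in (0:ℝ)..2 * π, FF X G ρ θ := by
    unfold J FF
    rw [hG]
  rw [e]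
  exact this

end

end Pool.Agent.Lib.P280d4a
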