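import Pool.Agent.Lib.P280d4a.Prep
set_option autoImplicit false
open Complex MeasureTheory Metric Set Filter Topology
open scoped Real ComplexConjugate

namespace Pool.Agent.Lib.P280d4a

noncomputable section

variable {S : Finset ℂ} {ν : ℂ → ℝ}

lemma kk_pos {s : ℝ} (hs0 : 0 ≤ s) (hs1 : s < 1) {b : ℂ} (hb : ‖b‖ ≤ 1) :
    0 ≤ (conj (kk s b) * (1 - b)⁻¹).re := by
  have h1 : conj (kk s b) * (1 - b)⁻¹ = (s : ℂ) * ((1 + s * conj b) * (1 - b))⁻¹ := by
    unfold kk
    rw [map_div₀, map_add, map_mul, map_one, Complex.conj_ofReal, mul_inv, div_eq_mul_inv]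
    ring
  rw [h1, Complex.re_ofReal_mul, Complex.inv_re]
  apply mul_nonneg hs0
  apply div_nonneg _ (normSq_nonneg _)
  have h2 : ((1 + s * conj b) * (1 - b)).re = 1 - (1 - s) * b.re - s * (b.re ^ 2 + b.im ^ 2) := by
    simp only [mul_re, add_re, one_re, conj_re, sub_re, add_im, one_im, mul_im, conj_im, sub_im,
      ofReal_re, ofReal_im]
    ring
  rw [h2]
  have h3 : b.re ^ 2 + b.im ^ 2 ≤ 1 := by
    have : ‖b‖ ^ 2 ≤ 1 := by
      have := norm_nonneg b
      nlinarith
    rw [← Complex.normSq_eq_norm_sq, normSq_apply] at this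
    linarith
  have h4 : b.re ≤ 1 := (Complex.re_le_norm b).trans hb
  nlinarith

lemma re_mul_kk_le {s : ℝ} (hs0 : 0 ≤ s) (hs1 : s < 1) {b : ℂ} (hb : ‖b‖ ≤ 1) :
    (b * kk s b).re ≤ 1 / 2 := by
  have hne := one_add_ne_zero hs0 hs1 hb
  have h1 : b * kk s b = 1 - (1 - (-(s * b)))⁻¹ := by
    unfold kk
    rw [sub_neg_eq_add, eq_sub_iff_add_eq]
    have : b * ((s : ℂ) / (1 + s * b)) + (1 + (s : ℂ) * b)⁻¹ =
      (1 + (s : ℂ) * b) * (1 + (s : ℂ) * b)⁻¹ := by ring
    rw [this, mul_inv_cancel₀ hne]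
  have h2 : ‖-((s : ℂ) * b)‖ ≤ 1 := by
    rw [norm_neg, norm_mul, Complex.norm_real, Real.norm_of_nonneg hs0]
    nlinarith [norm_nonneg b]
  have h3 := re_inv_one_sub h2 (by rw [sub_neg_eq_add]; exact hne)
  rw [h1]
  simp only [sub_re, one_re] at h3 ⊢
  linarith

section
variable (hS : ∀ w ∈ S, ‖w‖ = 1) (hν : ∀ w ∈ S, 0 < ν w) (hsum : ∑ w ∈ S, ν w = 1)
include hS hν hsum

lemma main_ineq {L : ℝ}
    (hL : ∀ z ∈ ball (0:ℂ) 1, ∑ w ∈ S, ν w * Real.log ‖1 - conj w * z‖ ≤ L)
    {s : ℝ} (hs0 : 0 < s) (hs1 : s < 1) (K : ℕ) :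
    Real.log (1 + s) - 1 / (K + 1) ≤ S.card * L := by
  have hSne : S.Nonempty := by
    rw [Finset.nonempty_iff_ne_empty]
    rintro rfl
    simp at hsum
  have hr : 0 < (S.card : ℝ) := by exact_mod_cast hSne.card_pos
  obtain ⟨r, hrdef⟩ : ∃ r : ℝ, r = S.card := ⟨_, rfl⟩
  have hr0 : 0 < r := by rw [hrdef]; exact hr
  have hrc : (S.card : ℂ) = (r : ℂ) := by rw [hrdef]; push_cast; rfl
  have h1s : 1 < 1 / s := by rw [lt_div_iff₀ hs0]; linarith
  have hUo : IsOpen (ball (0:ℂ) 1) := isOpen_ball
  -- the function MM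
  have hMd0 : DifferentiableOn ℂ (fun w => kk s w * (1 - w ^ K)) (ball 0 (1 / s)) := by
    intro w hw
    rw [mem_ball_zero_iff] at hw
    have hne : 1 + (s : ℂ) * w ≠ 0 := by
      intro h
      have h1 : ‖(s : ℂ) * w‖ < 1 := by
        rw [norm_mul, Complex.norm_real, Real.norm_of_nonneg hs0.le]
        rw [lt_div_iff₀ hs0] at hw
        linarith
      have h2 : (s : ℂ) * w = -1 := by linear_combination h
      rw [h2, norm_neg, norm_one] at h1
      exact lt_irrefl _ h1
    unfold kk
    apply DifferentiableWithinAt.mul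
    · exact (differentiableWithinAt_const _).div ((differentiableWithinAt_const _).add
        ((differentiableWithinAt_const _).mul differentiableWithinAt_id)) hne
    · fun_prop
  obtain ⟨MM, hM0, hMd⟩ := (hMd0.isExactOn_ball).with_val_at 0 0
  have hMdiff : DifferentiableOn ℂ MM (ball 0 (1 / s)) := fun w hw =>
    (hMd w hw).differentiableAt.differentiableWithinAt
  have hbmaps : MapsTo (bb S ν) (closedBall 0 1) (ball 0 (1 / s)) := by
    intro z hz
    rw [mem_closedBall_zero_iff] at hz
    rw [mem_ball_zero_iff]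
    exact lt_of_le_of_lt (norm_bb_le hS hν hsum hz) h1s
  have hbb := diff_bb hS hν hsum
  have hbball : DifferentiableOn ℂ (bb S ν) (ball 0 1) := hbb.mono ball_subset_closedBall
  -- the function G = MM ∘ bb
  obtain ⟨G, hG⟩ : ∃ G : ℂ → ℂ, G = fun z => MM (bb S ν z) := ⟨_, rfl⟩
  have hGd : DifferentiableOn ℂ G (closedBall 0 1) := by
    rw [hG]; exact hMdiff.comp hbb hbmaps
  have hG0 : G 0 = 0 := by rw [hG]; simp only [bb_zero, hM0]
  have hGnode : ∀ w ∈ S, G w = MM 1 := by
    intro w hw
    rw [hG]; simp only [bb_node hS hν hsum hw]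
  have hbd : ∀ z ∈ ball (0:ℂ) 1, HasDerivAt (bb S ν) (deriv (bb S ν) z) z := fun z hz =>
    (hbball.differentiableAt (hUo.mem_nhds hz)).hasDerivAt
  have hGder : ∀ z ∈ ball (0:ℂ) 1, HasDerivAt G
      (kk s (bb S ν z) * (1 - bb S ν z ^ K) * deriv (bb S ν) z) z := by
    intro z hz
    rw [hG]
    exact (hMd _ (hbmaps (ball_subset_closedBall hz))).comp z (hbd z hz)
  -- the function Ups
  have hkk := diff_kk hS hν hsum hs0.le hs1
  have hbt : DifferentiableOn ℂ (fun z => Q1 S ν z / NN S ν z) (closedBall 0 1) := by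
    intro z hz
    rw [mem_closedBall_zero_iff] at hz
    exact ((differentiable_Q1 z).div (differentiable_NN z)
      (NN_ne_zero hS hν hsum hz)).differentiableWithinAt
  have hU0 : DifferentiableOn ℂ (fun z => kk s (bb S ν z) * (Q1 S ν z / NN S ν z)) (ball 0 1) :=
    (hkk.mul hbt).mono ball_subset_closedBall
  obtain ⟨Ups, hUps0, hUpsd⟩ := (hU0.isExactOn_ball).with_val_at 0 0
  -- X and Y
  obtain ⟨X, hX⟩ : ∃ X : ℂ → ℂ, X = fun z => Xi S ν z - (1 / r : ℂ) * SK K (bb S ν z) := ⟨_, rfl⟩
  obtain ⟨Y, hY⟩ : ∃ Y : ℂ → ℂ, Y = fun z => Ups z - (1 / r : ℂ) * G z := ⟨_, rfl⟩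
  have hXder : ∀ z ∈ ball (0:ℂ) 1, HasDerivAt X (Q1 S ν z / PP S z - (1 / r : ℂ) *
      ((∑ n ∈ Finset.range K, bb S ν z ^ n) * deriv (bb S ν) z)) z := by
    intro z hz
    rw [hX]
    exact (hasDerivAt_Xi hS hz).sub (((hasDerivAt_SK K _).comp z (hbd z hz)).const_mul _)
  have hYder : ∀ z ∈ ball (0:ℂ) 1, HasDerivAt Y (kk s (bb S ν z) * (Q1 S ν z / NN S ν z) -
      (1 / r : ℂ) * (kk s (bb S ν z) * (1 - bb S ν z ^ K) * deriv (bb S ν) z)) z := by
    intro z hz
    rw [hY]
    exact (hUpsd z hz).sub ((hGder z hz).const_mul _)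
  have hXd : DifferentiableOn ℂ X (ball 0 1) := fun z hz =>
    (hXder z hz).differentiableAt.differentiableWithinAt
  have hYd : DifferentiableOn ℂ Y (ball 0 1) := fun z hz =>
    (hYder z hz).differentiableAt.differentiableWithinAt
  -- positivity
  have hpos : ∀ z ∈ ball (0:ℂ) 1, 0 ≤ (deriv X z * conj (deriv Y z)).re := by
    intro z hz
    have hzn : ‖z‖ ≤ 1 := by rw [mem_ball_zero_iff] at hz; exact hz.le
    have hzS := notMem_of_ball hS hz
    have hPP := PP_ne_zero hS hzS
    have hNN := NN_ne_zero hS hν hsum hzn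
    have hob := one_sub_bb hS hν hsum hzn
    have hone : 1 - bb S ν z ≠ 0 := by rw [hob]; exact div_ne_zero hPP hNN
    rw [(hXder z hz).deriv, (hYder z hz).deriv]
    have hgeo := geom_mul K (bb S ν z)
    obtain ⟨E, hE⟩ : ∃ E : ℂ, E = Q1 S ν z / NN S ν z -
      (1 / r : ℂ) * ((1 - bb S ν z ^ K) * deriv (bb S ν) z) := ⟨_, rfl⟩
    have e1 : Q1 S ν z / PP S z - (1 / r : ℂ) *
      ((∑ n ∈ Finset.range K, bb S ν z ^ n) * deriv (bb S ν) z) = E * (1 - bb S ν z)⁻¹ := by
      rw [eq_mul_inv_iff_mul_eq₀ hone, hE]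
      have e2 : Q1 S ν z / PP S z * (1 - bb S ν z) = Q1 S ν z / NN S ν z := by
        rw [hob]; field_simp
      calc (Q1 S ν z / PP S z - (1 / r : ℂ) *
          ((∑ n ∈ Finset.range K, bb S ν z ^ n) * deriv (bb S ν) z)) * (1 - bb S ν z)
          = Q1 S ν z / PP S z * (1 - bb S ν z) - (1 / r : ℂ) *
            (((1 - bb S ν z) * ∑ n ∈ Finset.range K, bb S ν z ^ n) * deriv (bb S ν) z) := by ring
        _ = _ := by rw [e2, hgeo]
    have e3 : kk s (bb S ν z) * (Q1 S ν z / NN S ν z) -
      (1 / r : ℂ) * (kk s (bb S ν z) * (1 - bb S ν z ^ K) * deriv (bb S ν) z) =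
      kk s (bb S ν z) * E := by
      rw [hE]; ring
    rw [e1, e3]
    have e4 : E * (1 - bb S ν z)⁻¹ * conj (kk s (bb S ν z) * E) =
        (normSq E : ℂ) * (conj (kk s (bb S ν z)) * (1 - bb S ν z)⁻¹) := by
      rw [← Complex.mul_conj, map_mul]; ring
    rw [e4, Complex.re_ofReal_mul]
    exact mul_nonneg (normSq_nonneg _) (kk_pos hs0.le hs1 (norm_bb_le hS hν hsum hzn))
  -- the boundary function T
  obtain ⟨T, hT⟩ : ∃ T : ℂ → ℂ, T = fun z => bb S ν z * kk s (bb S ν z) -
      (1 / r : ℂ) * (z * deriv (bb S ν) z * (kk s (bb S ν z) * (1 - bb S ν z ^ K))) := ⟨_, rfl⟩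
  have hTeq : ∀ z ∈ ball (0:ℂ) 1, z * deriv Y z = T z := by
    intro z hz
    rw [(hYder z hz).deriv, hT]
    have : z * (Q1 S ν z / NN S ν z) = bb S ν z := by unfold bb QQ; ring
    simp only
    rw [← this]; ring
  have hTc : ContinuousOn T (closedBall 0 1) := by
    rw [hT]
    have c1 := cont_bb hS hν hsum
    have c2 := cont_deriv_bb hS hν hsum
    have c3 := hkk.continuousOn
    exact (c1.mul c3).sub (continuousOn_const.mul ((continuousOn_id.mul c2).mul
      (c3.mul (continuousOn_const.sub (c1.pow K)))))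
  have hSKc : Continuous (SK K) := by
    rw [continuous_iff_continuousAt]
    exact fun w => (hasDerivAt_SK K w).continuousAt
  have hF3c : ContinuousOn (fun z => SK K (bb S ν z) * conj (T z)) (closedBall 0 1) :=
    (hSKc.comp_continuousOn (cont_bb hS hν hsum)).mul
      (Complex.continuous_conj.comp_continuousOn hTc)
  -- J3 vanishes at radius one
  have hJ3 : J (fun z => SK K (bb S ν z) * conj (T z)) 1 = 0 := by
    have hcs : sphere (0:ℂ) 1 ⊆ closedBall 0 1 := sphere_subset_closedBall
    have c1 := (cont_bb hS hν hsum).mono hcs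
    have c2 := (cont_deriv_bb hS hν hsum).mono hcs
    have c3 := hkk.continuousOn.mono hcs
    have e1 : J (fun z => SK K (bb S ν z) * conj (T z)) 1 =
        J (fun z => ∑ n ∈ Finset.range K, (1 / ((n : ℂ) + 1)) *
          conj (conj (bb S ν z) ^ (n + 1) * T z)) 1 := by
      apply J_congr zero_le_one
      intro z _
      unfold SK
      rw [Finset.sum_mul]
      refine Finset.sum_congr rfl fun n _ => ?_
      rw [map_mul, map_pow, conj_conj]
      ring
    rw [e1, J_sum _ zero_le_one]
    · apply Finset.sum_eq_zero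
      intro n hn
      have hn' := Finset.mem_range.1 hn
      rw [J_const_mul, J_conj]
      have e2 : J (fun z => conj (bb S ν z) ^ (n + 1) * T z) 1 = 0 := by
        have e3 : J (fun z => conj (bb S ν z) ^ (n + 1) * T z) 1 =
          J (fun z => conj (bb S ν z) ^ (n + 1) * (bb S ν z * kk s (bb S ν z)) -
            (1 / r : ℂ) * (conj (bb S ν z) ^ (n + 1) *
              (z * deriv (bb S ν) z * (kk s (bb S ν z) * (1 - bb S ν z ^ K))))) 1 := by
          apply J_congr zero_le_one
          intro z _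
          rw [hT]; ring
        rw [e3, J_sub zero_le_one, J_const_mul, J_key hS hν hsum hs0.le hs1 (by omega) (by omega),
          hrc]
        · have : (r : ℂ) ≠ 0 := by exact_mod_cast hr0.ne'
          field_simp
          ring
        · exact ((Complex.continuous_conj.comp_continuousOn c1).pow _).mul (c1.mul c3)
        · exact continuousOn_const.mul (((Complex.continuous_conj.comp_continuousOn c1).pow _).mul
            ((continuousOn_id.mul c2).mul (c3.mul (continuousOn_const.sub (c1.pow K)))))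
      rw [e2, map_zero, mul_zero]
    · intro n _
      exact continuousOn_const.mul (Complex.continuous_conj.comp_continuousOn
        (((Complex.continuous_conj.comp_continuousOn c1).pow _).mul (hTc.mono hcs)))
  -- the inequality at radius ρ
  have hineq : ∀ ρ : ℝ, 0 < ρ → ρ < 1 → 0 ≤ 2 * π * L -
      (1 / r) * (∑ w ∈ S, ν w * (2 * π * (G (ρ ^ 2 * w)).re)) -
      (1 / r) * (J (fun z => SK K (bb S ν z) * conj (T z)) ρ).re := by
    intro ρ hρ0 hρ1
    have hsb : sphere (0:ℂ) ρ ⊆ ball 0 1 := by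
      intro z hz
      rw [mem_sphere_zero_iff_norm] at hz
      rw [mem_ball_zero_iff, hz]; exact hρ1
    have hcb : closedBall (0:ℂ) ρ ⊆ ball 0 1 := by
      intro z hz
      rw [mem_closedBall_zero_iff] at hz
      rw [mem_ball_zero_iff]; linarith
    have hXid : DifferentiableOn ℂ (Xi S ν) (ball 0 1) := fun z hz =>
      (hasDerivAt_Xi hS hz).differentiableAt.differentiableWithinAt
    have hGball : DifferentiableOn ℂ G (ball 0 1) := hGd.mono ball_subset_closedBall
    have h0 := J_nonneg hXd hYd hpos hρ0.le hρ1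
    -- decomposition
    have c1 := ((cont_bb hS hν hsum).mono ball_subset_closedBall).mono hsb
    have c3 := (hkk.continuousOn.mono ball_subset_closedBall).mono hsb
    have cXi := hXid.continuousOn.mono hsb
    have cG' : ContinuousOn (fun z => z * deriv G z) (sphere 0 ρ) :=
      continuousOn_id.mul (((hGball.deriv hUo).continuousOn).mono hsb)
    have hdec : J (fun z => X z * conj (z * deriv Y z)) ρ =
        J (fun z => Xi S ν z * conj (bb S ν z * kk s (bb S ν z))) ρ -
        (1 / r : ℂ) * J (fun z => Xi S ν z * conj (z * deriv G z)) ρ -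
        (1 / r : ℂ) * J (fun z => SK K (bb S ν z) * conj (T z)) ρ := by
      have e1 : J (fun z => X z * conj (z * deriv Y z)) ρ =
        J (fun z => (Xi S ν z * conj (bb S ν z * kk s (bb S ν z)) -
          (1 / r : ℂ) * (Xi S ν z * conj (z * deriv G z))) -
          (1 / r : ℂ) * (SK K (bb S ν z) * conj (T z))) ρ := by
        apply J_congr hρ0.le
        intro z hz
        have hzb : z ∈ ball (0:ℂ) 1 := hsb (by simpa using hz)
        rw [hTeq z hzb, (hGder z hzb).deriv, hX]
        have hTz : T z = bb S ν z * kk s (bb S ν z) - (1 / r : ℂ) *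
            (z * (kk s (bb S ν z) * (1 - bb S ν z ^ K) * deriv (bb S ν) z)) := by
          rw [hT]; ring
        have hcr : conj ((1 / r : ℂ)) = (1 / r : ℂ) := by
          rw [map_div₀, map_one, Complex.conj_ofReal]
        rw [hTz]
        simp only [map_sub, map_mul, hcr]
        ring
      rw [e1, J_sub hρ0.le, J_sub hρ0.le, J_const_mul, J_const_mul]
      · exact cXi.mul (Complex.continuous_conj.comp_continuousOn (c1.mul c3))
      · exact continuousOn_const.mul (cXi.mul (Complex.continuous_conj.comp_continuousOn cG'))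
      · exact (cXi.mul (Complex.continuous_conj.comp_continuousOn (c1.mul c3))).sub
          (continuousOn_const.mul (cXi.mul (Complex.continuous_conj.comp_continuousOn cG')))
      · exact continuousOn_const.mul
          ((hF3c.mono ball_subset_closedBall).mono hsb)
    -- J1
    have hJ1 : (J (fun z => Xi S ν z * conj (bb S ν z * kk s (bb S ν z))) ρ).re ≤ 2 * π * L := by
      apply upper hρ0.le (hXid.mono hcb)
        (((hbb.mul hkk).mono ball_subset_closedBall).mono hcb) Xi_zero (by simp [bb_zero])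
      · intro z hz
        have hzb : z ∈ ball (0:ℂ) 1 := hsb (by simpa using hz)
        refine le_trans (le_of_eq ?_) (hL z hzb)
        unfold Xi
        rw [neg_re, neg_neg, Complex.re_sum]
        refine Finset.sum_congr rfl fun w _ => ?_
        rw [Complex.re_ofReal_mul, Complex.log_re]
      · intro z hz
        exact re_mul_kk_le hs0.le hs1 (norm_bb_le hS hν hsum (by rw [hz]; exact hρ1.le))
    -- J2
    have hJ2 : J (fun z => Xi S ν z * conj (z * deriv G z)) ρ =
        ∑ w ∈ S, (ν w : ℂ) * conj (2 * π * G (ρ ^ 2 * w)) := by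
      rw [← J_parts hUo hρ0.le hsb hXid hGball]
      have e1 : J (fun z => z * deriv (Xi S ν) z * conj (G z)) ρ =
          J (fun z => ∑ w ∈ S, (ν w : ℂ) * conj (conj (conj w * z * (1 - conj w * z)⁻¹) * G z)) ρ := by
        apply J_congr hρ0.le
        intro z hz
        have hzb : z ∈ ball (0:ℂ) 1 := hsb (by simpa using hz)
        have hzS := notMem_of_ball hS hzb
        rw [(hasDerivAt_Xi hS hzb).deriv, Q1_div hS hzS,
          mul_div_cancel_left₀ _ (PP_ne_zero hS hzS), Finset.mul_sum, Finset.sum_mul]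
        refine Finset.sum_congr rfl fun w _ => ?_
        rw [map_mul, conj_conj]
        ring
      rw [e1, J_sum _ hρ0.le]
      · refine Finset.sum_congr rfl fun w hw => ?_
        rw [J_const_mul, J_conj, J_kernel hρ0 hρ1 (hGball.mono hcb) hG0 (hS w hw)]
      · intro w hw
        apply continuousOn_const.mul
        apply Complex.continuous_conj.comp_continuousOn
        apply ContinuousOn.mul _ (hGball.continuousOn.mono hsb)
        apply Complex.continuous_conj.comp_continuousOn
        apply ContinuousOn.mul (by fun_prop)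
        apply ContinuousOn.inv₀ (by fun_prop)
        intro z hz
        exact Complex.slitPlane_ne_zero (mem_slitPlane_of_ball hS hw (hsb hz))
    rw [hdec, hJ2] at h0
    simp only [sub_re] at h0
    have e5 : ((1 / r : ℂ) * ∑ w ∈ S, (ν w : ℂ) * conj (2 * π * G (ρ ^ 2 * w))).re =
        (1 / r) * (∑ w ∈ S, ν w * (2 * π * (G (ρ ^ 2 * w)).re)) := by
      have : (1 / r : ℂ) = ((1 / r : ℝ) : ℂ) := by push_cast; rfl
      rw [this, Complex.re_ofReal_mul, Complex.re_sum]
      congr 1
      refine Finset.sum_congr rfl fun w _ => ?_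
      rw [Complex.re_ofReal_mul, conj_re]
      have : (2 * π * G (ρ ^ 2 * w) : ℂ) = ((2 * π : ℝ) : ℂ) * G (ρ ^ 2 * w) := by
        push_cast; ring
      rw [this, Complex.re_ofReal_mul]
    have e6 : ((1 / r : ℂ) * J (fun z => SK K (bb S ν z) * conj (T z)) ρ).re =
        (1 / r) * (J (fun z => SK K (bb S ν z) * conj (T z)) ρ).re := by
      have : (1 / r : ℂ) = ((1 / r : ℝ) : ℂ) := by push_cast; rfl
      rw [this, Complex.re_ofReal_mul]
    rw [e5, e6] at h0
    linarith
  -- the limit
  have hlim : Tendsto (fun ρ : ℝ => 2 * π * L -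
      (1 / r) * (∑ w ∈ S, ν w * (2 * π * (G (ρ ^ 2 * w)).re)) -
      (1 / r) * (J (fun z => SK K (bb S ν z) * conj (T z)) ρ).re) (𝓝[<] 1)
      (𝓝 (2 * π * L - (1 / r) * (∑ w ∈ S, ν w * (2 * π * (MM 1).re)) -
      (1 / r) * (0 : ℂ).re)) := by
    apply Tendsto.sub
    · apply Tendsto.sub tendsto_const_nhds
      apply Tendsto.const_mul
      apply tendsto_finsetSum
      intro w hw
      apply Tendsto.const_mul
      apply Tendsto.const_mul
      rw [← hGnode w hw]
      have hcw : ContinuousWithinAt G (closedBall 0 1) w :=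
        hGd.continuousOn w (by rw [mem_closedBall_zero_iff, hS w hw])
      have ht : Tendsto (fun ρ : ℝ => ((ρ : ℂ) ^ 2 * w)) (𝓝[<] 1) (𝓝[closedBall 0 1] w) := by
        apply tendsto_nhdsWithin_iff.2
        constructor
        · have : Continuous (fun ρ : ℝ => ((ρ : ℂ) ^ 2 * w)) := by fun_prop
          have h := this.tendsto 1
          simp only [ofReal_one, one_pow, one_mul] at h
          exact h.mono_left nhdsWithin_le_nhds
        · have : Ioo (0:ℝ) 1 ∈ 𝓝[<] (1:ℝ) := Ioo_mem_nhdsLT (by norm_num)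
          filter_upwards [this] with ρ hρ
          rw [mem_closedBall_zero_iff, norm_mul, hS w hw, mul_one, norm_pow, Complex.norm_real,
            Real.norm_of_nonneg hρ.1.le]
          nlinarith [hρ.1, hρ.2]
      exact (Complex.continuous_re.tendsto _).comp (hcw.tendsto.comp ht)
    · apply Tendsto.const_mul
      rw [← hJ3]
      have hca : ContinuousOn (Real.circleAverage (fun z => SK K (bb S ν z) * conj (T z)) 0)
          (Icc 0 1) := by
        apply Real.ContinuousOn.circleAverage
        · apply hF3c.mono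
          intro z hz
          simp only [sub_zero] at hz
          rw [mem_closedBall_zero_iff]
          exact hz.2
        · intro r hr; exact hr.1
      have h1 : Tendsto (Real.circleAverage (fun z => SK K (bb S ν z) * conj (T z)) 0) (𝓝[<] 1)
          (𝓝 (Real.circleAverage (fun z => SK K (bb S ν z) * conj (T z)) 0 1)) := by
        have := hca 1 (right_mem_Icc.2 zero_le_one)
        apply this.tendsto.mono_left
        rw [nhdsWithin_le_iff]
        have h2 : Ioo (0:ℝ) 1 ∈ 𝓝[<] (1:ℝ) := Ioo_mem_nhdsLT (by norm_num)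
        filter_upwards [h2] with ρ hρ
        exact ⟨hρ.1.le, hρ.2.le⟩
      have h2 : Tendsto (fun ρ => J (fun z => SK K (bb S ν z) * conj (T z)) ρ) (𝓝[<] 1)
          (𝓝 (J (fun z => SK K (bb S ν z) * conj (T z)) 1)) := by
        simp only [J_eq_circleAverage]
        exact h1.const_mul _
      exact (Complex.continuous_re.tendsto _).comp h2
  have hfin : 0 ≤ 2 * π * L - (1 / r) * (∑ w ∈ S, ν w * (2 * π * (MM 1).re)) -
      (1 / r) * (0 : ℂ).re := by
    apply ge_of_tendsto hlim
    have : Ioo (0:ℝ) 1 ∈ 𝓝[<] (1:ℝ) := Ioo_mem_nhdsLT (by norm_num)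
    filter_upwards [this] with ρ hρ
    exact hineq ρ hρ.1 hρ.2
  rw [← Finset.sum_mul, hsum, zero_re, mul_zero, sub_zero, one_mul] at hfin
  have h5 := MM_lower hs0 hs1 K hM0 hMd
  have h6 : (MM 1).re ≤ r * L := by
    have h7 : (1 / r) * (2 * π * (MM 1).re) ≤ 2 * π * L := by linarith
    have h8 : 2 * π * ((1 / r) * (MM 1).re) ≤ 2 * π * L := by linarith
    have h9 : (1 / r) * (MM 1).re ≤ L := le_of_mul_le_mul_left h8 (by positivity)
    rw [one_div, inv_mul_le_iff₀ hr0] at h9
    exact h9
  rw [← hrdef]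
  linarith

end

end

end Pool.Agent.Lib.P280d4a
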