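import Pool.Agent.Lib.P280d4a.Blaschke
set_option autoImplicit false
open Complex MeasureTheory Metric Set Filter Topology
open scoped Real ComplexConjugate

namespace Pool.Agent.Lib.P280d4a

noncomputable section

lemma J_integrable {F : ℂ → ℂ} {ρ : ℝ} (hρ : 0 ≤ ρ) (hF : ContinuousOn F (sphere 0 ρ)) :
    IntervalIntegrable (fun θ => F (circleMap 0 ρ θ)) volume 0 (2 * π) :=
  (hF.comp_continuous (continuous_circleMap 0 ρ)
    (fun θ => circleMap_mem_sphere 0 hρ θ)).intervalIntegrable _ _

lemma J_add {F G : ℂ → ℂ} {ρ : ℝ} (hρ : 0 ≤ ρ) (hF : ContinuousOn F (sphere 0 ρ))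
    (hG : ContinuousOn G (sphere 0 ρ)) : J (fun z => F z + G z) ρ = J F ρ + J G ρ := by
  unfold J
  exact intervalIntegral.integral_add (J_integrable hρ hF) (J_integrable hρ hG)

lemma J_sub {F G : ℂ → ℂ} {ρ : ℝ} (hρ : 0 ≤ ρ) (hF : ContinuousOn F (sphere 0 ρ))
    (hG : ContinuousOn G (sphere 0 ρ)) : J (fun z => F z - G z) ρ = J F ρ - J G ρ := by
  unfold J
  exact intervalIntegral.integral_sub (J_integrable hρ hF) (J_integrable hρ hG)

lemma J_const_mul (c : ℂ) (F : ℂ → ℂ) (ρ : ℝ) : J (fun z => c * F z) ρ = c * J F ρ := by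
  unfold J
  exact intervalIntegral.integral_const_mul _ _

lemma J_sum {ι : Type*} (s : Finset ι) {F : ι → ℂ → ℂ} {ρ : ℝ} (hρ : 0 ≤ ρ)
    (hF : ∀ i ∈ s, ContinuousOn (F i) (sphere 0 ρ)) :
    J (fun z => ∑ i ∈ s, F i z) ρ = ∑ i ∈ s, J (F i) ρ := by
  unfold J
  exact intervalIntegral.integral_finsetSum (fun i hi => J_integrable hρ (hF i hi))

lemma J_const (c : ℂ) (ρ : ℝ) : J (fun _ => c) ρ = 2 * π * c := by
  unfold J
  simp

variable {S : Finset ℂ} {ν : ℂ → ℝ}

/-- `s / (1 + s w)` -/
def kk (s : ℝ) (w : ℂ) : ℂ := s / (1 + s * w)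

lemma one_add_ne_zero {s : ℝ} (hs0 : 0 ≤ s) (hs1 : s < 1) {w : ℂ} (hw : ‖w‖ ≤ 1) :
    1 + (s : ℂ) * w ≠ 0 := by
  intro h
  have h1 : ‖(s : ℂ) * w‖ < 1 := by
    rw [norm_mul, Complex.norm_real, Real.norm_of_nonneg hs0]
    nlinarith [norm_nonneg w]
  have h2 : (s : ℂ) * w = -1 := by linear_combination h
  rw [h2, norm_neg, norm_one] at h1
  exact lt_irrefl _ h1

lemma kk_expand {s : ℝ} (n : ℕ) {w : ℂ} (hw : 1 + (s : ℂ) * w ≠ 0) :
    kk s w = ∑ m ∈ Finset.range n, (s : ℂ) * (-s) ^ m * w ^ m + (-s) ^ n * w ^ n * kk s w := by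
  induction n with
  | zero => simp
  | succ n ih =>
    rw [Finset.sum_range_succ]
    have h : kk s w = s + (-s) * w * kk s w := by
      unfold kk
      field_simp
      ring
    calc kk s w = ∑ m ∈ Finset.range n, (s : ℂ) * (-s) ^ m * w ^ m + (-s) ^ n * w ^ n * kk s w := ih
      _ = ∑ m ∈ Finset.range n, (s : ℂ) * (-s) ^ m * w ^ m +
          (-s) ^ n * w ^ n * (s + (-s) * w * kk s w) := by rw [← h]
      _ = _ := by ring

section
variable (hS : ∀ w ∈ S, ‖w‖ = 1) (hν : ∀ w ∈ S, 0 < ν w) (hsum : ∑ w ∈ S, ν w = 1)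
include hS hν hsum

omit hS hν hsum in
lemma differentiableOn_deriv_bb : DifferentiableOn ℂ (deriv (bb S ν)) (UU S ν) :=
  differentiableOn_bb.deriv isOpen_UU

lemma cont_bb : ContinuousOn (bb S ν) (closedBall 0 1) :=
  differentiableOn_bb.continuousOn.mono (closedBall_subset_UU hS hν hsum)

lemma cont_deriv_bb : ContinuousOn (deriv (bb S ν)) (closedBall 0 1) :=
  differentiableOn_deriv_bb.continuousOn.mono (closedBall_subset_UU hS hν hsum)

lemma diff_bb : DifferentiableOn ℂ (bb S ν) (closedBall 0 1) :=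
  differentiableOn_bb.mono (closedBall_subset_UU hS hν hsum)

lemma diff_deriv_bb : DifferentiableOn ℂ (deriv (bb S ν)) (closedBall 0 1) :=
  differentiableOn_deriv_bb.mono (closedBall_subset_UU hS hν hsum)

lemma diff_kk {s : ℝ} (hs0 : 0 ≤ s) (hs1 : s < 1) :
    DifferentiableOn ℂ (fun z => kk s (bb S ν z)) (closedBall 0 1) := by
  unfold kk
  intro z hz
  have hb := diff_bb hS hν hsum z hz
  rw [mem_closedBall_zero_iff] at hz
  have h := one_add_ne_zero hs0 hs1 (norm_bb_le hS hν hsum hz)
  exact (differentiableWithinAt_const _).div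
    ((differentiableWithinAt_const _).add ((differentiableWithinAt_const _).mul hb)) h

omit hS hν hsum in
lemma J_of_zero {F : ℂ → ℂ} (hF : DifferentiableOn ℂ F (closedBall 0 1)) (h0 : F 0 = 0) :
    J F 1 = 0 := by
  have hdc : DiffContOnCl ℂ F (ball 0 1) := by
    apply DifferentiableOn.diffContOnCl
    rwa [closure_ball _ one_ne_zero]
  rw [J_meanValue zero_le_one hdc, h0, mul_zero]

lemma J_conj_pow (j : ℕ) : J (fun z => conj (bb S ν z) ^ j) 1 = if j = 0 then (2 * π : ℂ) else 0 := by
  by_cases hj : j = 0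
  · subst hj
    simp only [pow_zero, if_true]
    rw [J_const, mul_one]
  · rw [if_neg hj]
    have h1 : J (fun z => (bb S ν z) ^ j) 1 = 0 := by
      apply J_of_zero ((diff_bb hS hν hsum).pow j)
      simp [bb_zero, hj]
    have h2 : J (fun z => conj (bb S ν z) ^ j) 1 = J (fun z => conj ((bb S ν z) ^ j)) 1 := by
      congr 1
      ext z
      rw [map_pow]
    rw [h2, J_conj, h1, map_zero]

lemma J_conj_pow_deriv (j : ℕ) (hj : 1 ≤ j) :
    J (fun z => conj (bb S ν z) ^ j * (z * deriv (bb S ν) z)) 1 =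
      if j = 1 then (2 * π * S.card : ℂ) else 0 := by
  by_cases h1 : j = 1
  · subst h1
    simp only [pow_one, if_true]
    exact J_logderiv hS hν hsum
  · rw [if_neg h1]
    obtain ⟨i, rfl⟩ : ∃ i, j = i + 2 := ⟨j - 2, by omega⟩
    have hY : DifferentiableOn ℂ (fun z => (bb S ν z) ^ (i + 2)) (UU S ν) :=
      differentiableOn_bb.pow _
    have hsub : sphere (0:ℂ) 1 ⊆ UU S ν :=
      sphere_subset_closedBall.trans (closedBall_subset_UU hS hν hsum)
    have p := J_parts isOpen_UU zero_le_one hsub (differentiableOn_bb (S := S) (ν := ν)) hY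
    have e1 : J (fun z => conj (bb S ν z) ^ (i + 2) * (z * deriv (bb S ν) z)) 1 =
        J (fun z => z * deriv (bb S ν) z * conj ((bb S ν z) ^ (i + 2))) 1 := by
      congr 1
      ext z
      rw [map_pow]
      ring
    rw [e1, p]
    have hder : ∀ z, ‖z‖ = 1 → deriv (fun z => (bb S ν z) ^ (i + 2)) z =
        (i + 2 : ℕ) * (bb S ν z) ^ (i + 1) * deriv (bb S ν) z := by
      intro z hz
      have hd : DifferentiableAt ℂ (bb S ν) z :=
        differentiableOn_bb.differentiableAt (isOpen_UU.mem_nhds (hsub (by simpa using hz)))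
      have := (hd.hasDerivAt.fun_pow (i + 2)).deriv
      simpa using this
    have e2 : J (fun z => bb S ν z * conj (z * deriv (fun z => (bb S ν z) ^ (i + 2)) z)) 1 =
        J (fun z => ((i + 2 : ℕ) : ℂ) * conj ((bb S ν z) ^ i * (z * deriv (bb S ν) z))) 1 := by
      apply J_congr zero_le_one
      intro z hz
      rw [hder z hz]
      have := conj_bb_mul_bb hS hν hsum hz
      simp only [map_mul, map_pow, map_natCast]
      linear_combination (((i + 2 : ℕ) : ℂ) * conj (bb S ν z) ^ i * conj z *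
        conj (deriv (bb S ν) z)) * this
    rw [e2, J_const_mul, J_conj]
    have e3 : J (fun z => (bb S ν z) ^ i * (z * deriv (bb S ν) z)) 1 = 0 := by
      apply J_of_zero
      · exact ((diff_bb hS hν hsum).pow i).mul
          (differentiableOn_id.mul (diff_deriv_bb hS hν hsum))
      · simp
    rw [e3, map_zero, mul_zero]

/-- The key cancellation. -/
lemma J_key {s : ℝ} (hs0 : 0 ≤ s) (hs1 : s < 1) {n K : ℕ} (hn : 1 ≤ n) (hnK : n ≤ K) :
    J (fun z => conj (bb S ν z) ^ n * (z * deriv (bb S ν) z * (kk s (bb S ν z) *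
      (1 - (bb S ν z) ^ K)))) 1 =
    S.card * J (fun z => conj (bb S ν z) ^ n * (bb S ν z * kk s (bb S ν z))) 1 := by
  have hcb := (cont_bb hS hν hsum).mono sphere_subset_closedBall
  have hcd := (cont_deriv_bb hS hν hsum).mono sphere_subset_closedBall
  have hck := (diff_kk hS hν hsum hs0 hs1).continuousOn.mono sphere_subset_closedBall
  have hcc : ContinuousOn (fun z => conj (bb S ν z)) (sphere 0 1) :=
    Complex.continuous_conj.comp_continuousOn hcb
  have hzd : ContinuousOn (fun z => z * deriv (bb S ν) z) (sphere 0 1) :=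
    continuousOn_id.mul hcd
  -- left side
  have L : J (fun z => conj (bb S ν z) ^ n * (z * deriv (bb S ν) z * (kk s (bb S ν z) *
      (1 - (bb S ν z) ^ K)))) 1 = (s : ℂ) * (-s) ^ (n - 1) * (2 * π * S.card) := by
    have e1 : J (fun z => conj (bb S ν z) ^ n * (z * deriv (bb S ν) z * (kk s (bb S ν z) *
      (1 - (bb S ν z) ^ K)))) 1 =
      J (fun z => (∑ m ∈ Finset.range n, ((s : ℂ) * (-s) ^ m) *
        (conj (bb S ν z) ^ (n - m) * (z * deriv (bb S ν) z))) +
        ((-s) ^ n * (z * deriv (bb S ν) z * kk s (bb S ν z)) -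
          z * deriv (bb S ν) z * (kk s (bb S ν z) * (bb S ν z) ^ (K - n)))) 1 := by
      apply J_congr zero_le_one
      intro z hz
      have hb1 := conj_bb_mul_bb hS hν hsum hz
      have hne := one_add_ne_zero hs0 hs1 (norm_bb_le hS hν hsum hz.le)
      have hexp := kk_expand n hne
      have hK : (bb S ν z) ^ K = (bb S ν z) ^ n * (bb S ν z) ^ (K - n) := by
        rw [← pow_add, Nat.add_sub_cancel' hnK]
      have hbn : conj (bb S ν z) ^ n * (bb S ν z) ^ n = 1 := by
        rw [← mul_pow, hb1, one_pow]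
      have hbm : ∀ m ∈ Finset.range n, conj (bb S ν z) ^ n * (bb S ν z) ^ m =
          conj (bb S ν z) ^ (n - m) := by
        intro m hm
        have hm' := Finset.mem_range.1 hm
        have : conj (bb S ν z) ^ n = conj (bb S ν z) ^ (n - m) * conj (bb S ν z) ^ m := by
          rw [← pow_add, Nat.sub_add_cancel hm'.le]
        rw [this, mul_assoc, ← mul_pow, hb1, one_pow, mul_one]
      have hsumeq : conj (bb S ν z) ^ n * ∑ m ∈ Finset.range n, (s : ℂ) * (-s) ^ m *
          (bb S ν z) ^ m = ∑ m ∈ Finset.range n, ((s : ℂ) * (-s) ^ m) *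
            conj (bb S ν z) ^ (n - m) := by
        rw [Finset.mul_sum]
        refine Finset.sum_congr rfl fun m hm => ?_
        rw [← hbm m hm]; ring
      have hsum2 : ∑ m ∈ Finset.range n, ((s : ℂ) * (-s) ^ m) *
          (conj (bb S ν z) ^ (n - m) * (z * deriv (bb S ν) z)) =
          (∑ m ∈ Finset.range n, ((s : ℂ) * (-s) ^ m) * conj (bb S ν z) ^ (n - m)) *
            (z * deriv (bb S ν) z) := by
        rw [Finset.sum_mul]
        refine Finset.sum_congr rfl fun m _ => ?_
        ring
      rw [hsum2, ← hsumeq]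
      generalize hA : ∑ m ∈ Finset.range n, (s : ℂ) * (-s) ^ m * (bb S ν z) ^ m = A at *
      generalize hk : kk s (bb S ν z) = k at *
      rw [hK]
      have h1 : conj (bb S ν z) ^ n * (z * deriv (bb S ν) z *
          (k * (1 - bb S ν z ^ n * bb S ν z ^ (K - n)))) =
          (z * deriv (bb S ν) z) * (conj (bb S ν z) ^ n * k) -
          (conj (bb S ν z) ^ n * bb S ν z ^ n) * (z * deriv (bb S ν) z * (k *
            bb S ν z ^ (K - n))) := by ring
      have h2 : conj (bb S ν z) ^ n * k = conj (bb S ν z) ^ n * A + (-s) ^ n * k := by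
        calc conj (bb S ν z) ^ n * k = conj (bb S ν z) ^ n * (A + (-s) ^ n * bb S ν z ^ n * k) := by
              rw [← hexp]
          _ = conj (bb S ν z) ^ n * A +
              (-s) ^ n * (conj (bb S ν z) ^ n * bb S ν z ^ n) * k := by ring
          _ = _ := by rw [hbn, mul_one]
      rw [h1, h2, hbn]
      ring
    rw [e1]
    rw [J_add zero_le_one, J_sum _ zero_le_one, J_sub zero_le_one]
    · have h1 : J (fun z => (-s : ℂ) ^ n * (z * deriv (bb S ν) z * kk s (bb S ν z))) 1 = 0 := by
        rw [J_const_mul, J_of_zero, mul_zero]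
        · exact (differentiableOn_id.mul (diff_deriv_bb hS hν hsum)).mul
            (diff_kk hS hν hsum hs0 hs1)
        · simp
      have h2 : J (fun z => z * deriv (bb S ν) z * (kk s (bb S ν z) * (bb S ν z) ^ (K - n))) 1
          = 0 := by
        apply J_of_zero
        · exact (differentiableOn_id.mul (diff_deriv_bb hS hν hsum)).mul
            ((diff_kk hS hν hsum hs0 hs1).mul ((diff_bb hS hν hsum).pow _))
        · simp
      rw [h1, h2, sub_zero, add_zero]
      rw [Finset.sum_eq_single (n - 1)]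
      · rw [J_const_mul, J_conj_pow_deriv hS hν hsum _ (by omega), if_pos (by omega)]
      · intro m hm hne
        have hm' := Finset.mem_range.1 hm
        rw [J_const_mul, J_conj_pow_deriv hS hν hsum _ (by omega), if_neg (by omega), mul_zero]
      · intro h
        exact absurd (Finset.mem_range.2 (by omega)) h
    · exact continuousOn_const.mul (hzd.mul hck)
    · exact hzd.mul (hck.mul (hcb.pow _))
    · intro m _
      exact continuousOn_const.mul ((hcc.pow _).mul hzd)
    · exact continuousOn_finsetSum _ fun m _ => continuousOn_const.mul ((hcc.pow _).mul hzd)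
    · exact (continuousOn_const.mul (hzd.mul hck)).sub (hzd.mul (hck.mul (hcb.pow _)))
  have R : J (fun z => conj (bb S ν z) ^ n * (bb S ν z * kk s (bb S ν z))) 1 =
      (s : ℂ) * (-s) ^ (n - 1) * (2 * π) := by
    have e1 : J (fun z => conj (bb S ν z) ^ n * (bb S ν z * kk s (bb S ν z))) 1 =
      J (fun z => (∑ m ∈ Finset.range n, ((s : ℂ) * (-s) ^ m) *
        (conj (bb S ν z) ^ (n - 1 - m))) + (-s) ^ n * (bb S ν z * kk s (bb S ν z))) 1 := by
      apply J_congr zero_le_one
      intro z hz
      have hb1 := conj_bb_mul_bb hS hν hsum hz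
      have hne := one_add_ne_zero hs0 hs1 (norm_bb_le hS hν hsum hz.le)
      have hexp := kk_expand n hne
      have hbn : conj (bb S ν z) ^ n * (bb S ν z) ^ n = 1 := by
        rw [← mul_pow, hb1, one_pow]
      have hsumeq : conj (bb S ν z) ^ n * (bb S ν z * ∑ m ∈ Finset.range n, (s : ℂ) * (-s) ^ m *
          (bb S ν z) ^ m) = ∑ m ∈ Finset.range n, ((s : ℂ) * (-s) ^ m) *
            conj (bb S ν z) ^ (n - 1 - m) := by
        rw [Finset.mul_sum, Finset.mul_sum]
        refine Finset.sum_congr rfl fun m hm => ?_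
        have hm' := Finset.mem_range.1 hm
        have : conj (bb S ν z) ^ n = conj (bb S ν z) ^ (n - 1 - m) * conj (bb S ν z) ^ (m + 1) := by
          rw [← pow_add]; congr 1; omega
        have h2 : conj (bb S ν z) ^ (m + 1) * (bb S ν z) ^ (m + 1) = 1 := by
          rw [← mul_pow, hb1, one_pow]
        rw [this]
        calc conj (bb S ν z) ^ (n - 1 - m) * conj (bb S ν z) ^ (m + 1) *
            (bb S ν z * ((s : ℂ) * (-s) ^ m * bb S ν z ^ m))
            = (s : ℂ) * (-s) ^ m * conj (bb S ν z) ^ (n - 1 - m) *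
              (conj (bb S ν z) ^ (m + 1) * (bb S ν z) ^ (m + 1)) := by ring
          _ = _ := by rw [h2, mul_one]
      rw [← hsumeq]
      generalize hA : ∑ m ∈ Finset.range n, (s : ℂ) * (-s) ^ m * (bb S ν z) ^ m = A at *
      generalize hk : kk s (bb S ν z) = k at *
      calc conj (bb S ν z) ^ n * (bb S ν z * k)
          = conj (bb S ν z) ^ n * (bb S ν z * (A + (-s) ^ n * bb S ν z ^ n * k)) := by rw [← hexp]
        _ = conj (bb S ν z) ^ n * (bb S ν z * A) +
            (-s) ^ n * (conj (bb S ν z) ^ n * bb S ν z ^ n) * (bb S ν z * k) := by ring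
        _ = _ := by rw [hbn, mul_one]
    rw [e1, J_add zero_le_one, J_sum _ zero_le_one]
    · have h1 : J (fun z => (-s : ℂ) ^ n * (bb S ν z * kk s (bb S ν z))) 1 = 0 := by
        rw [J_const_mul, J_of_zero, mul_zero]
        · exact (diff_bb hS hν hsum).mul (diff_kk hS hν hsum hs0 hs1)
        · rw [bb_zero, zero_mul]
      rw [h1, add_zero, Finset.sum_eq_single (n - 1)]
      · rw [J_const_mul, J_conj_pow hS hν hsum, if_pos (by omega)]
      · intro m hm hne
        have hm' := Finset.mem_range.1 hm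
        rw [J_const_mul, J_conj_pow hS hν hsum, if_neg (by omega), mul_zero]
      · intro h
        exact absurd (Finset.mem_range.2 (by omega)) h
    · intro m _
      exact continuousOn_const.mul (hcc.pow _)
    · exact continuousOn_finsetSum _ fun m _ => continuousOn_const.mul (hcc.pow _)
    · exact continuousOn_const.mul (hcb.mul hck)
  rw [L, R]
  ring

end

end

end Pool.Agent.Lib.P280d4a
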