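import Pool.Agent.Lib.P280d4a.Key
set_option autoImplicit false
open Complex MeasureTheory Metric Set Filter Topology
open scoped Real ComplexConjugate

namespace Pool.Agent.Lib.P280d4a

noncomputable section

variable {S : Finset ℂ} {ν : ℂ → ℝ}

/-- minus the complex potential -/
def Xi (S : Finset ℂ) (ν : ℂ → ℝ) (z : ℂ) : ℂ := -∑ w ∈ S, (ν w : ℂ) * log (1 - conj w * z)

/-- truncated logarithm -/
def SK (K : ℕ) (w : ℂ) : ℂ := ∑ n ∈ Finset.range K, w ^ (n + 1) / (n + 1)

lemma hasDerivAt_SK (K : ℕ) (w : ℂ) :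
    HasDerivAt (SK K) (∑ n ∈ Finset.range K, w ^ n) w := by
  unfold SK
  apply HasDerivAt.fun_sum
  intro n _
  have h := (hasDerivAt_pow (n + 1) w).div_const ((n : ℂ) + 1)
  have hne : ((n : ℂ) + 1) ≠ 0 := by exact_mod_cast Nat.succ_ne_zero n
  have e : ((n + 1 : ℕ) : ℂ) * w ^ (n + 1 - 1) / ((n : ℂ) + 1) = w ^ n := by
    rw [Nat.add_sub_cancel]
    push_cast
    rw [mul_div_assoc, mul_comm, div_mul_cancel₀ _ hne]
  rw [e] at h
  exact h

lemma geom_mul (K : ℕ) (w : ℂ) : (1 - w) * ∑ n ∈ Finset.range K, w ^ n = 1 - w ^ K := by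
  have := mul_neg_geom_sum w K
  exact this

lemma SK_zero (K : ℕ) : SK K 0 = 0 := by
  unfold SK
  apply Finset.sum_eq_zero
  intro n _
  simp

section
variable (hS : ∀ w ∈ S, ‖w‖ = 1)
include hS

lemma mem_slitPlane_of_ball {w z : ℂ} (hw : w ∈ S) (hz : z ∈ ball (0:ℂ) 1) :
    1 - conj w * z ∈ slitPlane := by
  rw [mem_ball_zero_iff] at hz
  left
  have h1 : ‖conj w * z‖ < 1 := by
    rw [norm_mul, RCLike.norm_conj, hS w hw, one_mul]; exact hz
  have h2 := Complex.re_le_norm (conj w * z)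
  simp only [sub_re, one_re]
  linarith

lemma hasDerivAt_Xi {z : ℂ} (hz : z ∈ ball (0:ℂ) 1) :
    HasDerivAt (Xi S ν) (Q1 S ν z / PP S z) z := by
  have hzS := notMem_of_ball hS hz
  have h1 : HasDerivAt (fun z => ∑ w ∈ S, (ν w : ℂ) * log (1 - conj w * z))
      (∑ w ∈ S, (ν w : ℂ) * (-(conj w) / (1 - conj w * z))) z := by
    apply HasDerivAt.fun_sum
    intro w hw
    apply HasDerivAt.const_mul
    have h2 : HasDerivAt (fun z => 1 - conj w * z) (-(conj w)) z := by
      have := ((hasDerivAt_id z).const_mul (conj w)).const_sub 1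
      simpa using this
    exact h2.clog (mem_slitPlane_of_ball hS hw hz)
  have h3 := h1.neg
  have h4 : -(∑ w ∈ S, (ν w : ℂ) * (-(conj w) / (1 - conj w * z))) = Q1 S ν z / PP S z := by
    rw [Q1_div hS hzS, mul_div_cancel_left₀ _ (PP_ne_zero hS hzS), ← Finset.sum_neg_distrib]
    refine Finset.sum_congr rfl fun w _ => ?_
    rw [div_eq_mul_inv]
    ring
  rw [h4] at h3
  exact h3

omit hS in
lemma Xi_zero : Xi S ν 0 = 0 := by
  simp [Xi]

end

/-- `2 Re` identity -/
lemma re_J_mul_conj {A B : ℂ → ℂ} {ρ : ℝ} (hρ : 0 ≤ ρ) (hA : ContinuousOn A (sphere 0 ρ))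
    (hB : ContinuousOn B (sphere 0 ρ)) :
    (J (fun z => A z * conj (B z)) ρ).re + (J (fun z => A z * B z) ρ).re =
      ∫ θ in (0:ℝ)..2 * π, 2 * (A (circleMap 0 ρ θ)).re * (B (circleMap 0 ρ θ)).re := by
  have hc1 : ContinuousOn (fun z => A z * conj (B z)) (sphere 0 ρ) :=
    hA.mul (Complex.continuous_conj.comp_continuousOn hB)
  have hc2 : ContinuousOn (fun z => A z * B z) (sphere 0 ρ) := hA.mul hB
  rw [← Complex.add_re, ← J_add hρ hc1 hc2]
  unfold J
  have hint : IntervalIntegrable (fun θ => A (circleMap 0 ρ θ) * conj (B (circleMap 0 ρ θ)) +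
      A (circleMap 0 ρ θ) * B (circleMap 0 ρ θ)) volume 0 (2 * π) :=
    J_integrable hρ (hc1.add hc2)
  have := Complex.reCLM.intervalIntegral_comp_comm hint
  simp only [Complex.reCLM_apply] at this
  rw [← this]
  congr 1
  ext θ
  simp only [add_re, mul_re, conj_re, conj_im]
  ring

lemma re_J {A : ℂ → ℂ} {ρ : ℝ} (hρ : 0 ≤ ρ) (hA : ContinuousOn A (sphere 0 ρ)) :
    (J A ρ).re = ∫ θ in (0:ℝ)..2 * π, (A (circleMap 0 ρ θ)).re := by
  unfold J
  have := Complex.reCLM.intervalIntegral_comp_comm (J_integrable hρ hA)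
  simp only [Complex.reCLM_apply] at this
  exact this.symm

/-- Upper bound. -/
lemma upper {A B : ℂ → ℂ} {ρ : ℝ} (hρ : 0 ≤ ρ) (hA : DifferentiableOn ℂ A (closedBall 0 ρ))
    (hB : DifferentiableOn ℂ B (closedBall 0 ρ)) (hA0 : A 0 = 0) (hB0 : B 0 = 0) {L : ℝ}
    (hAL : ∀ z, ‖z‖ = ρ → -(A z).re ≤ L) (hBp : ∀ z, ‖z‖ = ρ → (B z).re ≤ 1 / 2) :
    (J (fun z => A z * conj (B z)) ρ).re ≤ 2 * π * L := by
  have hAc := hA.continuousOn.mono (sphere_subset_closedBall (x := (0:ℂ)) (ε := ρ))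
  have hBc := hB.continuousOn.mono (sphere_subset_closedBall (x := (0:ℂ)) (ε := ρ))
  have dcl : ∀ F : ℂ → ℂ, DifferentiableOn ℂ F (closedBall 0 ρ) → DiffContOnCl ℂ F (ball 0 ρ) := by
    intro F hF
    apply DifferentiableOn.diffContOnCl
    exact hF.mono closure_ball_subset_closedBall
  have e0 : J (fun z => A z * B z) ρ = 0 := by
    rw [J_meanValue hρ (dcl (fun z => A z * B z) (hA.mul hB)), hA0, zero_mul, mul_zero]
  have eA : ∫ θ in (0:ℝ)..2 * π, (A (circleMap 0 ρ θ)).re = 0 := by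
    rw [← re_J hρ hAc, J_meanValue hρ (dcl _ hA), hA0, mul_zero, zero_re]
  have eB : ∫ θ in (0:ℝ)..2 * π, (B (circleMap 0 ρ θ)).re = 0 := by
    rw [← re_J hρ hBc, J_meanValue hρ (dcl _ hB), hB0, mul_zero, zero_re]
  have e1 := re_J_mul_conj hρ hAc hBc
  rw [e0, zero_re, add_zero] at e1
  rw [e1]
  have cA : Continuous (fun θ => (A (circleMap 0 ρ θ)).re) :=
    Complex.continuous_re.comp (hAc.comp_continuous (continuous_circleMap 0 ρ)
      (fun θ => circleMap_mem_sphere 0 hρ θ))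
  have cB : Continuous (fun θ => (B (circleMap 0 ρ θ)).re) :=
    Complex.continuous_re.comp (hBc.comp_continuous (continuous_circleMap 0 ρ)
      (fun θ => circleMap_mem_sphere 0 hρ θ))
  have hint : ∫ θ in (0:ℝ)..2 * π, (2 * (A (circleMap 0 ρ θ)).re * (B (circleMap 0 ρ θ)).re -
      (A (circleMap 0 ρ θ)).re + 2 * L * (B (circleMap 0 ρ θ)).re) ≤
      ∫ θ in (0:ℝ)..2 * π, L := by
    apply intervalIntegral.integral_mono_on (by positivity)
    · exact ((((continuous_const.mul cA).mul cB).sub cA).add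
        (continuous_const.mul cB)).intervalIntegrable _ _
    · exact intervalIntegrable_const
    · intro θ _
      have h1 := hAL (circleMap 0 ρ θ) (by rw [norm_circleMap_zero, abs_of_nonneg hρ])
      have h2 := hBp (circleMap 0 ρ θ) (by rw [norm_circleMap_zero, abs_of_nonneg hρ])
      nlinarith
  rw [intervalIntegral.integral_add, intervalIntegral.integral_sub,
    intervalIntegral.integral_const_mul, eA, eB] at hint
  · simp only [sub_zero, mul_zero, add_zero, intervalIntegral.integral_const, smul_eq_mul] at hint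
    linarith
  · exact ((continuous_const.mul cA).mul cB).intervalIntegrable _ _
  · exact cA.intervalIntegrable _ _
  · exact (((continuous_const.mul cA).mul cB).sub cA).intervalIntegrable _ _
  · exact (continuous_const.mul cB).intervalIntegrable _ _

/-- Cauchy kernel on the circle. -/
lemma J_kernel {G : ℂ → ℂ} {ρ : ℝ} (hρ0 : 0 < ρ) (hρ1 : ρ < 1)
    (hG : DifferentiableOn ℂ G (closedBall 0 ρ)) (hG0 : G 0 = 0) {w : ℂ} (hw : ‖w‖ = 1) :
    J (fun z => conj (conj w * z * (1 - conj w * z)⁻¹) * G z) ρ = 2 * π * G (ρ ^ 2 * w) := by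
  have dcl : DiffContOnCl ℂ G (ball 0 ρ) := by
    apply DifferentiableOn.diffContOnCl
    exact hG.mono closure_ball_subset_closedBall
  have hr2 : ‖((ρ : ℂ) ^ 2 * w)‖ = ρ ^ 2 := by
    rw [norm_mul, hw, mul_one, norm_pow, Complex.norm_real, Real.norm_of_nonneg hρ0.le]
  have hlt : ρ ^ 2 < ρ := by nlinarith
  have hmem : ((ρ : ℂ) ^ 2 * w) ∈ ball (0:ℂ) |ρ| := by
    rw [mem_ball_zero_iff, hr2, abs_of_pos hρ0]; exact hlt
  have h1 := DiffContOnCl.circleAverage_smul_div (R := ρ) (c := 0) (f := G)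
    (w := (ρ : ℂ) ^ 2 * w) (by rwa [abs_of_pos hρ0]) hmem
  simp only [smul_eq_mul] at h1
  have h2 : J (fun z => (z - 0) / (z - (ρ : ℂ) ^ 2 * w) * G z) ρ = 2 * π * G (ρ ^ 2 * w) := by
    rw [J_eq_circleAverage, h1]
  have hGc := hG.continuousOn.mono (sphere_subset_closedBall (x := (0:ℂ)) (ε := ρ))
  have h3 : J G ρ = 0 := by rw [J_meanValue hρ0.le dcl, hG0, mul_zero]
  have hne : ∀ z : ℂ, ‖z‖ = ρ → z - (ρ : ℂ) ^ 2 * w ≠ 0 := by
    intro z hz h
    have : ‖z‖ = ρ ^ 2 := by rw [sub_eq_zero.1 h, hr2]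
    rw [hz] at this
    linarith
  have hc : ContinuousOn (fun z => (z - 0) / (z - (ρ : ℂ) ^ 2 * w) * G z) (sphere 0 ρ) := by
    apply ContinuousOn.mul _ hGc
    apply ContinuousOn.div (by fun_prop) (by fun_prop)
    intro z hz
    exact hne z (by simpa using hz)
  have h4 : J (fun z => conj (conj w * z * (1 - conj w * z)⁻¹) * G z) ρ =
      J (fun z => (z - 0) / (z - (ρ : ℂ) ^ 2 * w) * G z - G z) ρ := by
    apply J_congr hρ0.le
    intro z hz
    have hz0 : z ≠ 0 := by
      rw [← norm_ne_zero_iff, hz]; exact hρ0.ne'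
    have hzz : conj z * z = (ρ : ℂ) ^ 2 := by
      rw [← Complex.normSq_eq_conj_mul_self, Complex.normSq_eq_norm_sq, hz]
      push_cast; ring
    have hcz : conj z = (ρ : ℂ) ^ 2 / z := by
      field_simp
      exact hzz
    have hn := hne z hz
    simp only [map_mul, map_inv₀, map_sub, map_one, conj_conj, sub_zero]
    rw [hcz]
    have h5 : (1 - w * ((ρ : ℂ) ^ 2 / z)) = (z - (ρ : ℂ) ^ 2 * w) / z := by
      field_simp
    rw [h5]
    generalize hD : z - (ρ : ℂ) ^ 2 * w = D at *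
    have h6 : w * (ρ : ℂ) ^ 2 = z - D := by rw [← hD]; ring
    have h7 : w * ((ρ : ℂ) ^ 2 / z) = (z - D) / z := by rw [← h6]; ring
    rw [h7]
    field_simp
  rw [h4, J_sub hρ0.le hc hGc, h2, h3, sub_zero]

/-- the value at the boundary point `1` -/
lemma MM_lower {s : ℝ} (hs0 : 0 < s) (hs1 : s < 1) (K : ℕ) {MM : ℂ → ℂ} (hM0 : MM 0 = 0)
    (hMd : ∀ w ∈ ball (0:ℂ) (1 / s), HasDerivAt MM (kk s w * (1 - w ^ K)) w) :
    Real.log (1 + s) - 1 / (K + 1) ≤ (MM 1).re := by
  have h1s : 1 < 1 / s := by rw [lt_div_iff₀ hs0]; linarith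
  let g : ℝ → ℝ := fun x => (MM x).re - Real.log (1 + s * x) + x ^ (K + 1) / (K + 1)
  have hg : ∀ x : ℝ, 0 ≤ x → x ≤ 1 → HasDerivAt g
      ((s / (1 + s * x)) * (1 - x ^ K) - s / (1 + s * x) + x ^ K) x := by
    intro x hx0 hx1
    have hmem : (x : ℂ) ∈ ball (0:ℂ) (1 / s) := by
      rw [mem_ball_zero_iff, Complex.norm_real, Real.norm_of_nonneg hx0]
      linarith
    have d1 : HasDerivAt (fun x : ℝ => (MM x).re) ((s / (1 + s * x)) * (1 - x ^ K)) x := by
      have := (hMd x hmem).real_of_complex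
      have e : (kk s (x : ℂ) * (1 - (x : ℂ) ^ K)).re = (s / (1 + s * x)) * (1 - x ^ K) := by
        unfold kk
        rw [← Complex.ofReal_re ((s / (1 + s * x)) * (1 - x ^ K))]
        push_cast
        rfl
      rw [e] at this
      exact this
    have hpos : 0 < 1 + s * x := by positivity
    have d2 : HasDerivAt (fun x : ℝ => Real.log (1 + s * x)) (s / (1 + s * x)) x := by
      have h : HasDerivAt (fun x : ℝ => 1 + s * x) s x := by
        have := ((hasDerivAt_id x).const_mul s).const_add 1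
        simpa using this
      exact h.log hpos.ne'
    have d3 : HasDerivAt (fun x : ℝ => x ^ (K + 1) / ((K : ℝ) + 1)) (x ^ K) x := by
      have h := (hasDerivAt_pow (K + 1) x).div_const ((K : ℝ) + 1)
      have hne : ((K : ℝ) + 1) ≠ 0 := by positivity
      have e : ((K + 1 : ℕ) : ℝ) * x ^ (K + 1 - 1) / ((K : ℝ) + 1) = x ^ K := by
        rw [Nat.add_sub_cancel]
        push_cast
        rw [mul_div_assoc, mul_comm, div_mul_cancel₀ _ hne]
      rw [e] at h
      exact h
    exact (d1.sub d2).add d3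
  have hmono : MonotoneOn g (Icc 0 1) := by
    apply monotoneOn_of_deriv_nonneg (convex_Icc 0 1)
    · intro x hx
      exact (hg x hx.1 hx.2).continuousAt.continuousWithinAt
    · intro x hx
      rw [interior_Icc] at hx
      exact (hg x hx.1.le hx.2.le).differentiableAt.differentiableWithinAt
    · intro x hx
      rw [interior_Icc] at hx
      rw [(hg x hx.1.le hx.2.le).deriv]
      have hx0 := hx.1
      have hpos : 0 < 1 + s * x := by have := hx.1; positivity
      have h2 : s / (1 + s * x) ≤ 1 := by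
        rw [div_le_one hpos]; nlinarith
      have h3 : 0 ≤ x ^ K := by have := hx.1; positivity
      have : s / (1 + s * x) * (1 - x ^ K) - s / (1 + s * x) + x ^ K =
        x ^ K * (1 - s / (1 + s * x)) := by ring
      rw [this]
      exact mul_nonneg h3 (by linarith)
  have := hmono (left_mem_Icc.2 zero_le_one) (right_mem_Icc.2 zero_le_one) zero_le_one
  simp only [g, ofReal_zero, hM0, zero_re, mul_zero, add_zero, Real.log_one, ofReal_one, mul_one,
    one_pow] at this
  have hz : (0:ℝ) ^ (K + 1) = 0 := zero_pow (Nat.succ_ne_zero K)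
  rw [hz] at this
  have h3 : (0:ℝ) - 0 + 0 / ((K:ℝ) + 1) = 0 := by simp
  rw [h3] at this
  linarith

end

end Pool.Agent.Lib.P280d4a
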